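import Mathlib

set_option autoImplicit false

namespace Pool.Agent.Helper33.LN

universe u v

section vec

variable {k : Type u} {V : Type v} [Field k] [AddCommGroup V] [Module k V]

theorem exists_adapted (S : ℕ → Submodule k V) (hS : Antitone S) :
    ∃ (X : Set V) (lv : V → ℕ), (∀ x ∈ X, x ∈ S (lv x)) ∧ LinearIndepOn k id X ∧
      (∀ n, ∀ s ∈ S n, ∃ (t : Finset V) (g : V → k), (t : Set V) ⊆ X ∧ (∀ x ∈ t, lv x = n) ∧
        ∃ s' ∈ S (n + 1), s = ∑ x ∈ t, g x • x + s') := by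
  classical
  choose K hK using fun n => Submodule.exists_isCompl (S (n + 1))
  have hb := fun n => exists_linearIndependent k ((K n ⊓ S n : Submodule k V) : Set V)
  choose b hb1 hb2 hb3 using hb
  have hspan : ∀ n, Submodule.span k (b n) = K n ⊓ S n := by
    intro n
    rw [hb2, Submodule.span_eq]
  have hdisj : ∀ n c, c ∈ K n → c ∈ S (n + 1) → c = 0 := by
    intro n c h1 h2
    have := (hK n).disjoint.le_bot ⟨h2, h1⟩
    exact (Submodule.mem_bot k).mp this
  have hne : ∀ n, ∀ x ∈ b n, x ≠ 0 := by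
    intro n x hx
    exact (hb3 n).ne_zero (⟨x, hx⟩ : b n)
  have huniq : ∀ x n m, x ∈ b n → x ∈ b m → n = m := by
    have aux : ∀ x n m, x ∈ b n → x ∈ b m → ¬ n < m := by
      intro x n m hn hm hlt
      exact hne n x hn (hdisj n x (hb1 n hn).1 (hS hlt (hb1 m hm).2))
    intro x n m hn hm
    exact le_antisymm (not_lt.mp (aux x m n hm hn)) (not_lt.mp (aux x n m hn hm))
  have hlv : ∀ x, ∃ n, ∀ m, x ∈ b m → n = m := by
    intro x
    by_cases h : ∃ n, x ∈ b n
    · obtain ⟨n, hn⟩ := h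
      exact ⟨n, fun m hm => huniq x n m hn hm⟩
    · push Not at h
      exact ⟨0, fun m hm => absurd hm (h m)⟩
  choose lv hlv using hlv
  have hX : ∀ x ∈ ⋃ n, b n, x ∈ b (lv x) := by
    intro x hx
    obtain ⟨n, hn⟩ := Set.mem_iUnion.mp hx
    rw [hlv x n hn]
    exact hn
  refine ⟨⋃ n, b n, lv, ?_, ?_, ?_⟩
  · intro x hx
    exact (hb1 _ (hX x hx)).2
  · rw [linearIndepOn_iff']
    intro t g ht hsum
    by_contra hcon
    push Not at hcon
    obtain ⟨x1, hx1, hgx1⟩ := hcon
    set t' := t.filter (fun x => g x ≠ 0) with ht'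
    have ht'ne : t'.Nonempty := ⟨x1, by rw [ht', Finset.mem_filter]; exact ⟨hx1, hgx1⟩⟩
    obtain ⟨x0, hx0, hmin⟩ := Finset.exists_min_image t' lv ht'ne
    have hx0' := Finset.mem_filter.mp hx0
    have hsum' : ∑ x ∈ t', g x • x = 0 := by
      rw [ht', Finset.sum_filter_of_ne]
      · exact hsum
      · intro x _ h h0
        exact h (by rw [h0, zero_smul])
    rw [← Finset.sum_filter_add_sum_filter_not t' (fun x => lv x = lv x0)] at hsum'
    set F0 := t'.filter (fun x => lv x = lv x0) with hF0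
    have hF0b : (F0 : Set V) ⊆ b (lv x0) := by
      intro x hx
      have h1 := Finset.mem_filter.mp (Finset.mem_coe.mp hx)
      have h2 := hX x (ht (Finset.mem_coe.mpr (Finset.mem_filter.mp h1.1).1))
      rwa [h1.2] at h2
    have hc : ∑ x ∈ F0, g x • x ∈ K (lv x0) ⊓ S (lv x0) := by
      rw [← hspan]
      exact Submodule.sum_mem _ fun x hx => Submodule.smul_mem _ _
        (Submodule.subset_span (hF0b hx))
    have hrest : ∑ x ∈ t'.filter (fun x => ¬ lv x = lv x0), g x • x ∈ S (lv x0 + 1) := by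
      refine Submodule.sum_mem _ fun x hx => Submodule.smul_mem _ _ ?_
      have h1 := Finset.mem_filter.mp hx
      have h2 := hX x (ht (Finset.mem_coe.mpr (Finset.mem_filter.mp h1.1).1))
      have h3 : lv x0 < lv x := lt_of_le_of_ne (hmin x h1.1) (Ne.symm h1.2)
      exact hS h3 (hb1 _ h2).2
    have hc0 : ∑ x ∈ F0, g x • x = 0 := by
      apply hdisj _ _ hc.1
      rw [eq_neg_of_add_eq_zero_left hsum']
      exact Submodule.neg_mem _ hrest
    have hli : LinearIndepOn k id (b (lv x0)) := hb3 _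
    have := (linearIndepOn_iff'.mp hli) F0 g hF0b hc0 x0 (by
      rw [hF0, Finset.mem_filter]
      exact ⟨hx0, rfl⟩)
    exact hx0'.2 this
  · intro n s hs
    have htop : s ∈ S (n + 1) ⊔ K n := by
      rw [(hK n).sup_eq_top]
      exact Submodule.mem_top
    obtain ⟨s', hs', c, hc, e⟩ := Submodule.mem_sup.mp htop
    have hcS : c ∈ S n := by
      have : c = s - s' := by rw [← e]; abel
      rw [this]
      exact Submodule.sub_mem _ hs (hS (Nat.le_succ n) hs')
    have hcs : c ∈ Submodule.span k (b n) := by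
      rw [hspan]
      exact ⟨hc, hcS⟩
    obtain ⟨g, t, ht, -, hg⟩ := Submodule.mem_span_iff_exists_finset_subset.mp hcs
    refine ⟨t, g, fun x hx => Set.mem_iUnion.mpr ⟨n, ht hx⟩, fun x hx => hlv x n (ht hx), s', hs',
      ?_⟩
    rw [hg, ← e, add_comm]

end vec

section ab

theorem exists_adapted_add {B : Type u} [AddCommGroup B] (p : ℕ) (hp : p.Prime)
    (hB : ∀ b : B, p • b = 0) (S : ℕ → AddSubgroup B) (hS : Antitone S) :
    ∃ (X : Set B) (lv : B → ℕ), (∀ x ∈ X, x ∈ S (lv x)) ∧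
      (∀ (F : Finset B) (d : B → ℤ), (F : Set B) ⊆ X → ∑ x ∈ F, d x • x = 0 →
        ∀ x ∈ F, (p : ℤ) ∣ d x) ∧
      (∀ n, ∀ s ∈ S n, ∃ (t : Finset B) (g : B → ℤ), (t : Set B) ⊆ X ∧ (∀ x ∈ t, lv x = n) ∧
        ∃ s' ∈ S (n + 1), s = ∑ x ∈ t, g x • x + s') := by
  have hpf : Fact p.Prime := ⟨hp⟩
  letI instB : Module (ZMod p) B := AddCommGroup.zmodModule hB
  obtain ⟨X, lv, h1, h2, h3⟩ := exists_adapted (fun n => AddSubgroup.toZModSubmodule p (S n))
    (fun n m h => (AddSubgroup.toZModSubmodule p).monotone (hS h))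
  refine ⟨X, lv, fun x hx => (AddSubgroup.mem_toZModSubmodule p).mp (h1 x hx), ?_, ?_⟩
  · intro F d hF hsum x hx
    have hs' : ∑ y ∈ F, ((d y : ZMod p)) • id y = 0 := by
      rw [← hsum]
      refine Finset.sum_congr rfl fun y _ => ?_
      exact Int.cast_smul_eq_zsmul (ZMod p) (d y) y
    have := (linearIndepOn_iff'.mp h2) F (fun y => (d y : ZMod p)) hF hs' x hx
    exact (ZMod.intCast_zmod_eq_zero_iff_dvd _ _).mp this
  · intro n s hs
    obtain ⟨t, g, ht, hlv, s', hs', e⟩ := h3 n s ((AddSubgroup.mem_toZModSubmodule p).mpr hs)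
    refine ⟨t, fun b => ((g b).val : ℤ), ht, hlv, s',
      (AddSubgroup.mem_toZModSubmodule p).mp hs', ?_⟩
    rw [e]
    congr 1
    refine Finset.sum_congr rfl fun y _ => ?_
    rw [natCast_zsmul, ← Nat.cast_smul_eq_nsmul (ZMod p), ZMod.natCast_zmod_val]

variable (A : Type u) [AddCommGroup A]

theorem exists_socle_basis (p : ℕ) (hp : p.Prime) : ∃ (X : Set A) (lv : A → ℕ),
    (∀ x ∈ X, p • x = 0 ∧ ∃ y, p ^ (lv x) • y = x) ∧
    (∀ (F : Finset A) (d : A → ℤ), (F : Set A) ⊆ X → ∑ x ∈ F, d x • x = 0 →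
      ∀ x ∈ F, (p : ℤ) ∣ d x) ∧
    (∀ (n : ℕ) (s : A), p • s = 0 → (∃ y, p ^ n • y = s) → ∃ (F : Finset A) (d : A → ℤ),
      (F : Set A) ⊆ X ∧ (∀ x ∈ F, lv x = n) ∧
      ∃ y', s = ∑ x ∈ F, d x • x + p ^ (n + 1) • y') := by
  classical
  let T : AddSubgroup A := (nsmulAddMonoidHom (α := A) p).ker
  have hT : ∀ a, a ∈ T ↔ p • a = 0 := fun a => Iff.rfl
  let S : ℕ → AddSubgroup T := fun n =>
      { carrier := {s | ∃ y : A, p ^ n • y = (s : A)}
        add_mem' := by
          rintro a b ⟨y, hy⟩ ⟨z, hz⟩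
          exact ⟨y + z, by rw [smul_add, hy, hz]; rfl⟩
        zero_mem' := ⟨0, by simp⟩
        neg_mem' := by
          rintro a ⟨y, hy⟩
          exact ⟨-y, by rw [smul_neg, hy]; rfl⟩ }
  have hSm : ∀ n (s : T), s ∈ S n ↔ ∃ y : A, p ^ n • y = (s : A) := fun n s => Iff.rfl
  have hS : Antitone S := by
    apply antitone_nat_of_succ_le
    intro n s hs
    obtain ⟨y, hy⟩ := (hSm _ _).mp hs
    exact (hSm _ _).mpr ⟨p • y, by rw [← mul_smul, ← pow_succ]; exact hy⟩
  obtain ⟨X, lv, h1, h2, h3⟩ := exists_adapted_add p hp (by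
    rintro ⟨x, hx⟩
    exact Subtype.ext hx) S hS
  refine ⟨Subtype.val '' X, fun a => if h : a ∈ T then lv ⟨a, h⟩ else 0, ?_, ?_, ?_⟩
  · rintro _ ⟨x, hx, rfl⟩
    refine ⟨x.2, ?_⟩
    have : (if h : (x : A) ∈ T then lv ⟨x, h⟩ else 0) = lv x := dif_pos x.2
    change ∃ y, p ^ (if h : (x : A) ∈ T then lv ⟨x, h⟩ else 0) • y = (x : A)
    rw [this]
    exact (hSm _ _).mp (h1 x hx)
  · intro F d hF hsum x hx
    -- pull back the finset
    set F' : Finset T := F.preimage Subtype.val Subtype.val_injective.injOn with hF'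
    have hF'X : (F' : Set T) ⊆ X := by
      intro y hy
      have : (y : A) ∈ F := by
        rw [Finset.mem_coe, hF', Finset.mem_preimage] at hy
        exact hy
      obtain ⟨z, hz, e⟩ := hF this
      have : z = y := Subtype.ext e
      exact this ▸ hz
    have hs' : ∑ y ∈ F', d (y : A) • y = 0 := by
      apply Subtype.ext
      rw [AddSubgroup.val_finsetSum]
      have : ∀ y ∈ F', ((d (y : A) • y : T) : A) = d (y : A) • (y : A) :=
        fun y _ => rfl
      rw [Finset.sum_congr rfl this, hF']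
      have := Finset.sum_preimage (Subtype.val : T → A) F Subtype.val_injective.injOn
        (fun a => d a • a) (by
          intro a ha hna
          exfalso
          obtain ⟨z, _, e⟩ := hF ha
          exact hna ⟨z, e⟩)
      rw [this]
      exact hsum
    obtain ⟨z, hz, e⟩ := hF hx
    have hzF : z ∈ F' := by
      rw [hF', Finset.mem_preimage, e]
      exact hx
    have := h2 F' (fun y => d (y : A)) hF'X hs' z hzF
    rw [← e]
    exact this
  · intro n s hs hy
    obtain ⟨t, g, ht, hlv, s', hs', e⟩ := h3 n ⟨s, hs⟩ ((hSm _ _).mpr hy)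
    obtain ⟨y', hy'⟩ := (hSm _ _).mp hs'
    refine ⟨t.map ⟨Subtype.val, Subtype.val_injective⟩, fun a => if h : a ∈ T then
      g ⟨a, h⟩ else 0, ?_, ?_, y', ?_⟩
    · intro a ha
      rw [Finset.coe_map] at ha
      obtain ⟨z, hz, rfl⟩ := ha
      exact ⟨z, ht hz, rfl⟩
    · intro a ha
      obtain ⟨z, hz, rfl⟩ := Finset.mem_map.mp ha
      change (if h : (z : A) ∈ T then lv ⟨z, h⟩ else 0) = n
      rw [dif_pos z.2]
      exact hlv z hz
    · have e' := congrArg (Subtype.val : T → A) e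
      rw [AddSubgroup.coe_add, AddSubgroup.val_finsetSum] at e'
      rw [hy', Finset.sum_map]
      have : ∀ z ∈ t, (if h : ((⟨Subtype.val, Subtype.val_injective⟩ : T ↪ A) z) ∈ T then
          g ⟨_, h⟩ else 0) • ((⟨Subtype.val, Subtype.val_injective⟩ : T ↪ A) z) =
          ((g z • z : T) : A) := by
        intro z _
        change (if h : (z : A) ∈ T then g ⟨_, h⟩ else 0) • (z : A) = _
        rw [dif_pos z.2]
        rfl
      rw [Finset.sum_congr rfl this]
      exact e'

/-- existence of basic subgroups in torsion abelian groups (without purity) -/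
theorem exists_basic (htor : ∀ a : A, ∃ n : ℕ, 0 < n ∧ n • a = 0) :
    ∃ (I : Type u) (a : I → A) (p n : I → ℕ), (∀ i, (p i).Prime) ∧
      (∀ i, (p i) ^ (n i + 1) • a i = 0) ∧
      (∀ (s : Finset I) (c : I → ℤ), ∑ i ∈ s, c i • a i = 0 →
        ∀ i ∈ s, ((p i ^ (n i + 1) : ℕ) : ℤ) ∣ c i) ∧
      (∀ (q : ℕ), 0 < q → ∀ x : A, ∃ b ∈ AddSubgroup.closure (Set.range a),
        ∃ y, x = b + q • y) := by
  classical
  have hex : ∀ p : ℕ, ∃ (X : Set A) (lv : A → ℕ), p.Prime →
      (∀ x ∈ X, p • x = 0 ∧ ∃ y, p ^ (lv x) • y = x) ∧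
      (∀ (F : Finset A) (d : A → ℤ), (F : Set A) ⊆ X → ∑ x ∈ F, d x • x = 0 →
        ∀ x ∈ F, (p : ℤ) ∣ d x) ∧
      (∀ (n : ℕ) (s : A), p • s = 0 → (∃ y, p ^ n • y = s) → ∃ (F : Finset A) (d : A → ℤ),
        (F : Set A) ⊆ X ∧ (∀ x ∈ F, lv x = n) ∧
        ∃ y', s = ∑ x ∈ F, d x • x + p ^ (n + 1) • y') := by
    intro p
    by_cases hp : p.Prime
    · obtain ⟨X, lv, h⟩ := exists_socle_basis A p hp
      exact ⟨X, lv, fun _ => h⟩
    · exact ⟨∅, fun _ => 0, fun h => absurd h hp⟩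
  choose X lv hX using hex
  have hy : ∀ (p : ℕ) (x : A), ∃ y : A, p.Prime → x ∈ X p → p ^ (lv p x) • y = x := by
    intro p x
    by_cases h : p.Prime ∧ x ∈ X p
    · obtain ⟨y, hy⟩ := ((hX p h.1).1 x h.2).2
      exact ⟨y, fun _ _ => hy⟩
    · exact ⟨0, fun h1 h2 => absurd ⟨h1, h2⟩ h⟩
  choose Y hY using hy
  let I : Type u := {t : ℕ × A // t.1.Prime ∧ t.2 ∈ X t.1}
  let a : I → A := fun i => Y i.1.1 i.1.2
  let P : I → ℕ := fun i => i.1.1
  let n : I → ℕ := fun i => lv i.1.1 i.1.2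
  have hPp : ∀ i : I, (P i).Prime := fun i => i.2.1
  have ha : ∀ i : I, (P i) ^ (n i) • a i = i.1.2 := fun i => hY _ _ i.2.1 i.2.2
  have ha' : ∀ i : I, (P i) ^ (n i + 1) • a i = 0 := by
    intro i
    rw [pow_succ', mul_smul, ha i]
    exact ((hX _ i.2.1).1 _ i.2.2).1
  -- claim 1
  have claim1 : ∀ (p0 : ℕ), p0.Prime → ∀ (s : Finset I), (∀ i ∈ s, P i = p0) → ∀ d : I → ℤ,
      ∑ i ∈ s, d i • i.1.2 = 0 → ∀ i ∈ s, (p0 : ℤ) ∣ d i := by
    intro p0 hp0 s hs d hsum i hi
    have hinj : Set.InjOn (fun i : I => i.1.2) s := by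
      intro i hi j hj h
      apply Subtype.ext
      apply Prod.ext
      · exact (hs i hi).trans (hs j hj).symm
      · exact h
    let d' : A → ℤ := fun x => if h : x ∈ X p0 then d ⟨(p0, x), hp0, h⟩ else 0
    have hd' : ∀ i ∈ s, d' i.1.2 = d i := by
      intro i hi
      have h1 : i.1.2 ∈ X p0 := by
        have := i.2.2
        have h2 : i.1.1 = p0 := hs i hi
        rw [h2] at this
        exact this
      change (if h : i.1.2 ∈ X p0 then d ⟨(p0, i.1.2), hp0, h⟩ else 0) = d i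
      rw [dif_pos h1]
      congr 1
      apply Subtype.ext
      apply Prod.ext
      · exact (hs i hi).symm
      · rfl
    have hsum' : ∑ x ∈ s.image (fun i : I => i.1.2), d' x • x = 0 := by
      rw [Finset.sum_image hinj, ← hsum]
      refine Finset.sum_congr rfl fun i hi => ?_
      rw [hd' i hi]
    have := (hX p0 hp0).2.1 (s.image (fun i : I => i.1.2)) d' (by
      intro x hx
      rw [Finset.coe_image] at hx
      obtain ⟨j, hj, rfl⟩ := hx
      have h1 := j.2.2
      have h2 : j.1.1 = p0 := hs j hj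
      rw [h2] at h1
      exact h1) hsum' i.1.2 (Finset.mem_image.mpr ⟨i, hi, rfl⟩)
    rwa [hd' i hi] at this
  -- claim 2
  have claim2 : ∀ (p0 : ℕ), p0.Prime → ∀ (s : Finset I), (∀ i ∈ s, P i = p0) → ∀ (e : ℕ)
      (c : I → ℤ), (∀ i ∈ s, (p0 : ℤ) ^ (n i + 1) ∣ (p0 : ℤ) ^ e * c i) →
      ∑ i ∈ s, c i • a i = 0 → ∀ i ∈ s, (p0 : ℤ) ^ (n i + 1) ∣ c i := by
    intro p0 hp0 s hs e
    have hp0' : (p0 : ℤ) ≠ 0 := by exact_mod_cast hp0.ne_zero
    induction e with
    | zero =>
      intro c h1 _ i hi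
      simpa using h1 i hi
    | succ e ih =>
      intro c h1 hsum
      have h2 : ∀ i ∈ s, (p0 : ℤ) ^ (n i) ∣ (p0 : ℤ) ^ e * c i := by
        intro i hi
        have := h1 i hi
        rw [pow_succ', pow_succ', mul_assoc] at this
        exact (mul_dvd_mul_iff_left hp0').mp this
      have h3 : ∀ i : I, ∃ d : ℤ, i ∈ s → (p0 : ℤ) ^ e * c i = (p0 : ℤ) ^ (n i) * d := by
        intro i
        by_cases hi : i ∈ s
        · obtain ⟨d, hd⟩ := h2 i hi
          exact ⟨d, fun _ => hd⟩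
        · exact ⟨0, fun h => absurd h hi⟩
      choose d hd using h3
      have hsum2 : ∑ i ∈ s, d i • i.1.2 = 0 := by
        have : ∑ i ∈ s, d i • i.1.2 = (p0 : ℤ) ^ e • ∑ i ∈ s, c i • a i := by
          rw [Finset.smul_sum]
          refine Finset.sum_congr rfl fun i hi => ?_
          rw [← mul_smul, hd i hi, mul_comm, mul_smul]
          congr 1
          rw [← ha i, hs i hi]
          rw [← natCast_zsmul]
          push_cast
          rfl
        rw [this, hsum, smul_zero]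
      have h4 := claim1 p0 hp0 s hs d hsum2
      apply ih c _ hsum
      intro i hi
      rw [hd i hi, pow_succ]
      exact mul_dvd_mul_left _ (h4 i hi)
  -- claim 3
  have claim3 : ∀ (s : Finset I) (c : I → ℤ), ∑ i ∈ s, c i • a i = 0 →
        ∀ i ∈ s, ((P i ^ (n i + 1) : ℕ) : ℤ) ∣ c i := by
    intro s c hsum i0 hi0
    set p0 := P i0 with hp0
    have hpp := hPp i0
    set M : ℕ := ∏ i ∈ s.filter (fun i => P i ≠ p0), P i ^ (n i + 1) with hM
    have h1 : ∑ i ∈ s.filter (fun i => P i = p0), ((M : ℤ) * c i) • a i = 0 := by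
      have h2 : ∑ i ∈ s, ((M : ℤ) * c i) • a i = 0 := by
        have : ∑ i ∈ s, ((M : ℤ) * c i) • a i = (M : ℤ) • ∑ i ∈ s, c i • a i := by
          rw [Finset.smul_sum]
          exact Finset.sum_congr rfl fun i _ => mul_smul _ _ _
        rw [this, hsum, smul_zero]
      rw [← Finset.sum_filter_add_sum_filter_not s (fun i => P i = p0)] at h2
      have h3 : ∑ i ∈ s.filter (fun i => ¬ P i = p0), ((M : ℤ) * c i) • a i = 0 := by
        apply Finset.sum_eq_zero
        intro i hi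
        have : P i ^ (n i + 1) ∣ M := Finset.dvd_prod_of_mem _ hi
        obtain ⟨k, hk⟩ := this
        have h4 : ((M : ℤ) * c i) = ((k : ℤ) * c i) * ((P i ^ (n i + 1) : ℕ) : ℤ) := by
          rw [hk]; push_cast; ring
        rw [h4, mul_smul, natCast_zsmul, ha' i, smul_zero]
      rw [h3, add_zero] at h2
      exact h2
    have h5 := claim2 p0 hpp (s.filter (fun i => P i = p0))
      (fun i hi => (Finset.mem_filter.mp hi).2) (s.sup fun i => n i + 1)
      (fun i => (M : ℤ) * c i) (by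
        intro i hi
        apply Dvd.dvd.mul_right
        apply pow_dvd_pow
        exact Finset.le_sup (f := fun i => n i + 1) (Finset.mem_filter.mp hi).1) h1 i0
      (Finset.mem_filter.mpr ⟨hi0, rfl⟩)
    have h6 : Nat.Coprime (p0 ^ (n i0 + 1)) M := by
      rw [hM]
      apply Nat.Coprime.prod_right
      intro i hi
      apply Nat.Coprime.pow
      rw [Nat.coprime_primes hpp (hPp i)]
      exact (Ne.symm (Finset.mem_filter.mp hi).2)
    have h7 : IsCoprime ((p0 ^ (n i0 + 1) : ℕ) : ℤ) (M : ℤ) := Nat.isCoprime_iff_coprime.mpr h6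
    apply h7.dvd_of_dvd_mul_left
    push_cast
    exact h5
  -- divisibility
  have hmem : ∀ (p : ℕ) (x : A), p.Prime → x ∈ X p → Y p x ∈ AddSubgroup.closure (Set.range a) :=
    fun p x hp hx => AddSubgroup.subset_closure ⟨⟨(p, x), hp, hx⟩, rfl⟩
  have hprim : ∀ p : ℕ, p.Prime → ∀ (k : ℕ) (x : A), p ^ k • x = 0 →
      ∃ b ∈ AddSubgroup.closure (Set.range a), ∃ y, x = b + p • y := by
    intro p hp k
    induction k with
    | zero =>
      intro x hx
      rw [pow_zero, one_smul] at hx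
      exact ⟨0, AddSubgroup.zero_mem _, 0, by rw [hx]; simp⟩
    | succ k ih =>
      intro x hx
      obtain ⟨F, d, hF, hlv, y', e⟩ := (hX p hp).2.2 k (p ^ k • x) (by
        rw [← mul_smul, ← pow_succ']
        exact hx) ⟨x, rfl⟩
      set β := ∑ x ∈ F, d x • Y p x with hβ
      have hβm : β ∈ AddSubgroup.closure (Set.range a) :=
        AddSubgroup.sum_mem _ fun z hz => AddSubgroup.zsmul_mem _ (hmem p z hp (hF hz)) _
      have h1 : p ^ k • β = ∑ x ∈ F, d x • x := by
        rw [hβ, Finset.smul_sum]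
        refine Finset.sum_congr rfl fun z hz => ?_
        rw [smul_comm]
        congr 1
        have := hY p z hp (hF hz)
        rw [hlv z hz] at this
        exact this
      have h2 : p ^ k • (x - β - p • y') = 0 := by
        rw [smul_sub, smul_sub, e, h1, ← mul_smul, ← pow_succ]
        abel
      obtain ⟨b, hb, y, e2⟩ := ih _ h2
      refine ⟨β + b, AddSubgroup.add_mem _ hβm hb, y' + y, ?_⟩
      have : x = (x - β - p • y') + β + p • y' := by abel
      rw [this, e2, smul_add]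
      abel
  have hprime : ∀ p : ℕ, p.Prime → ∀ x : A,
      ∃ b ∈ AddSubgroup.closure (Set.range a), ∃ y, x = b + p • y := by
    intro p hp x
    obtain ⟨m, hm, hmx⟩ := htor x
    obtain ⟨k, m', hm', e⟩ := Nat.exists_eq_pow_mul_and_not_dvd hm.ne' p hp.ne_one
    have h1 : p ^ k • (m' • x) = 0 := by rw [← mul_smul, ← e]; exact hmx
    obtain ⟨b, hb, y, e2⟩ := hprim p hp k _ h1
    have hcop : Nat.Coprime p m' := (Nat.Prime.coprime_iff_not_dvd hp).mpr hm'
    obtain ⟨u, v, huv⟩ := Nat.isCoprime_iff_coprime.mpr hcop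
    refine ⟨v • b, AddSubgroup.zsmul_mem _ hb _, u • x + v • y, ?_⟩
    have h3 : x = (u * (p : ℤ) + v * (m' : ℤ)) • x := by rw [huv, one_smul]
    have h4 : (m' : ℤ) • x = b + (p : ℤ) • y := by
      rw [natCast_zsmul, natCast_zsmul]; exact e2
    calc x = (u * (p : ℤ) + v * (m' : ℤ)) • x := h3
      _ = u • ((p : ℤ) • x) + v • ((m' : ℤ) • x) := by rw [add_smul, mul_smul, mul_smul]
      _ = u • ((p : ℤ) • x) + v • (b + (p : ℤ) • y) := by rw [h4]
      _ = v • b + (p : ℤ) • (u • x + v • y) := by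
          rw [smul_add, smul_add, smul_comm u (p : ℤ) x, smul_comm v (p : ℤ) y]
          abel
      _ = v • b + p • (u • x + v • y) := by rw [natCast_zsmul]
  refine ⟨I, a, P, n, hPp, ha', claim3, ?_⟩
  intro q
  induction q using Nat.recOnMul with
  | zero => intro h; exact absurd h (lt_irrefl 0)
  | one => exact fun _ x => ⟨0, AddSubgroup.zero_mem _, x, by simp⟩
  | prime p hp => exact fun _ => hprime p hp
  | mul r s hr hs =>
    intro hrs x
    have hr0 : 0 < r := Nat.pos_of_ne_zero (by rintro rfl; simp at hrs)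
    have hs0 : 0 < s := Nat.pos_of_ne_zero (by rintro rfl; simp at hrs)
    obtain ⟨b, hb, y, e⟩ := hr hr0 x
    obtain ⟨b', hb', y', e'⟩ := hs hs0 y
    refine ⟨b + r • b', AddSubgroup.add_mem _ hb (AddSubgroup.nsmul_mem _ hb' _), y', ?_⟩
    rw [e, e', smul_add, mul_smul]
    abel

end ab

end Pool.Agent.Helper33.LN
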