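import Pool.Agent.Helper33.LN.Main
import Pool.Agent.Helper33.LN.Abelian

set_option autoImplicit false

namespace Pool.Agent.Helper33.LN

open Subgroup
open scoped commutatorElement

universe u v

variable {G : Type u} [Group G]

theorem LocNormal.torsion (hL : LocNormal G) (g : G) : ∃ n : ℕ, 0 < n ∧ g ^ n = 1 := by
  obtain ⟨N, hN, hfin, hs⟩ := hL {g}
  have hg : g ∈ N := hs (by simp)
  have : Finite N := hfin.to_subtype
  refine ⟨Nat.card N, Nat.card_pos, ?_⟩
  have := pow_card_eq_one' (x := (⟨g, hg⟩ : N))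
  exact congrArg (Subtype.val : N → G) this

/-- if `G / H` is abelian and divisible, `H` supplements the kernel of the action on any finite
normal subgroup -/
theorem exists_supplement (H : Subgroup G) (hH : H.Normal)
    (hdiv : ∀ (q : ℕ), 0 < q → ∀ g : G, ∃ y, g⁻¹ * y ^ q ∈ H)
    (F : Subgroup G) (hF : F.Normal) (hFf : (F : Set G).Finite) (g : G) :
    ∃ h ∈ H, ∃ c : G, (∀ f ∈ F, c * f = f * c) ∧ g = h * c := by
  have hfin : Finite F := hFf.to_subtype
  have hfin2 : Finite (MulAut F) := by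
    have : Function.Injective (fun (e : MulAut F) => (e : F → F)) := DFunLike.coe_injective
    exact Finite.of_injective _ this
  let C : Subgroup G := (MulAut.conjNormal (H := F)).ker
  have hCf : C.FiniteIndex := ker_finiteIndex _
  have hC : ∀ c ∈ C, ∀ f ∈ F, c * f = f * c := by
    intro c hc f hf
    have h1 : MulAut.conjNormal (H := F) c = 1 := hc
    have h2 : ((MulAut.conjNormal (H := F) c) ⟨f, hf⟩ : G) = f := by
      rw [h1]
      rfl
    rw [MulAut.conjNormal_apply] at h2
    exact mul_inv_eq_iff_eq_mul.mp h2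
  have hsupf : (H ⊔ C).FiniteIndex := finiteIndex_of_le (H := C) le_sup_right
  have hm : 0 < (H ⊔ C).index := Nat.pos_of_ne_zero hsupf.index_ne_zero
  obtain ⟨y, hy⟩ := hdiv _ hm g
  have h1 : y ^ (H ⊔ C).index ∈ H ⊔ C := Subgroup.pow_index_mem _ _
  have h2 : g ∈ H ⊔ C := by
    have h3 := (H ⊔ C).mul_mem h1 ((H ⊔ C).inv_mem (Subgroup.mem_sup_left hy : g⁻¹ * _ ∈ H ⊔ C))
    have h4 : y ^ (H ⊔ C).index * (g⁻¹ * y ^ (H ⊔ C).index)⁻¹ = g := by group
    rwa [h4] at h3
  rw [Subgroup.mem_sup_of_normal_left] at h2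
  obtain ⟨h, hh, c, hc, e⟩ := h2
  exact ⟨h, hh, c, hC c hc, e.symm⟩

theorem commutator_le_map (hL : LocNormal G) (H : Subgroup G) (hH : H.Normal)
    (hdiv : ∀ (q : ℕ), 0 < q → ∀ g : G, ∃ y, g⁻¹ * y ^ q ∈ H) :
    commutator G ≤ (commutator H).map H.subtype := by
  rw [_root_.commutator_def, Subgroup.commutator_le]
  intro g1 _ g2 _
  obtain ⟨F1, hF1, hF1f, hs1⟩ := hL {g1}
  have hg1 : g1 ∈ F1 := hs1 (by simp)
  obtain ⟨h2, hh2, c2, hc2, e2⟩ := exists_supplement H hH hdiv F1 hF1 hF1f g2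
  obtain ⟨F2, hF2, hF2f, hs2⟩ := hL {h2}
  have hg2 : h2 ∈ F2 := hs2 (by simp)
  obtain ⟨h1, hh1, c1, hc1, e1⟩ := exists_supplement H hH hdiv F2 hF2 hF2f g1
  have k1 : ⁅g1, g2⁆ = ⁅g1, h2⁆ := by
    have := hc2 g1⁻¹ (F1.inv_mem hg1)
    rw [e2, commutatorElement_def, commutatorElement_def]
    calc g1 * (h2 * c2) * g1⁻¹ * (h2 * c2)⁻¹ = g1 * h2 * (c2 * g1⁻¹) * c2⁻¹ * h2⁻¹ := by group
      _ = g1 * h2 * g1⁻¹ * h2⁻¹ := by rw [this]; group
  have k2 : ⁅g1, h2⁆ = ⁅h1, h2⁆ := by
    have := hc1 h2 hg2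
    rw [e1, commutatorElement_def, commutatorElement_def]
    calc h1 * c1 * h2 * (h1 * c1)⁻¹ * h2⁻¹ = h1 * (c1 * h2) * c1⁻¹ * h1⁻¹ * h2⁻¹ := by group
      _ = h1 * h2 * h1⁻¹ * h2⁻¹ := by rw [this]; group
  rw [k1, k2]
  refine ⟨⁅(⟨h1, hh1⟩ : H), ⟨h2, hh2⟩⁆, ?_, rfl⟩
  exact Subgroup.commutator_mem_commutator (Subgroup.mem_top _) (Subgroup.mem_top _)

/-- the main result: existence of the subgroup together with a point-finite separating family -/
theorem exists_subgroup (hL : LocNormal G) (hR : ResFin G) :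
    ∃ H : Subgroup G, H.Normal ∧
      (∃ FF : Set (Subgroup H), (∀ N ∈ FF, N.Normal ∧ N.FiniteIndex) ∧
        (∀ g, {N | N ∈ FF ∧ g ∉ N}.Finite) ∧ (∀ g, g ≠ 1 → ∃ N ∈ FF, g ∉ N)) ∧
      commutator G ≤ H ∧ (∀ (q : ℕ), 0 < q → ∀ g : G, ∃ y, g⁻¹ * y ^ q ∈ H) := by
  classical
  have htor : ∀ a : Additive (Abelianization G), ∃ n : ℕ, 0 < n ∧ n • a = 0 := by
    intro a
    obtain ⟨g, hg⟩ : ∃ g : G, Additive.ofMul (Abelianization.of g) = a :=
      QuotientGroup.mk_surjective (s := commutator G) a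
    obtain ⟨n, hn, h⟩ := hL.torsion g
    refine ⟨n, hn, ?_⟩
    rw [← hg, ← ofMul_pow, ← map_pow, h, map_one]
    rfl
  obtain ⟨I, a, p, n, hp, hpa, hind, hdivA⟩ := exists_basic (Additive (Abelianization G)) htor
  let of' : G → Additive (Abelianization G) := fun g => Additive.ofMul (Abelianization.of g)
  have hof_mul : ∀ g h, of' (g * h) = of' g + of' h := fun g h => by
    change Additive.ofMul (Abelianization.of (g * h)) = _
    rw [map_mul, ofMul_mul]
  have hof_one : of' 1 = 0 := by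
    change Additive.ofMul (Abelianization.of 1) = _
    rw [map_one]
    rfl
  have hof_inv : ∀ g, of' g⁻¹ = - of' g := fun g => by
    change Additive.ofMul (Abelianization.of g⁻¹) = _
    rw [map_inv, ofMul_inv]
  have hof_pow : ∀ g (k : ℕ), of' (g ^ k) = k • of' g := fun g k => by
    change Additive.ofMul (Abelianization.of (g ^ k)) = _
    rw [map_pow, ofMul_pow]
  have hof_surj : ∀ b, ∃ g, of' g = b := fun b =>
    QuotientGroup.mk_surjective (s := commutator G) b
  have hof_ker : ∀ g, of' g = 0 → g ∈ commutator G := by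
    intro g hg
    rw [← Abelianization.ker_of, MonoidHom.mem_ker]
    exact hg
  have hof_comm : ∀ g ∈ commutator G, of' g = 0 := by
    intro g hg
    rw [← Abelianization.ker_of, MonoidHom.mem_ker] at hg
    exact hg
  let H : Subgroup G :=
    { carrier := {g | of' g ∈ AddSubgroup.closure (Set.range a)}
      mul_mem' := by
        intro x y hx hy
        change of' (x * y) ∈ AddSubgroup.closure (Set.range a)
        rw [hof_mul]
        exact AddSubgroup.add_mem _ hx hy
      one_mem' := by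
        change of' 1 ∈ AddSubgroup.closure (Set.range a)
        rw [hof_one]
        exact AddSubgroup.zero_mem _
      inv_mem' := by
        intro x hx
        change of' x⁻¹ ∈ AddSubgroup.closure (Set.range a)
        rw [hof_inv]
        exact AddSubgroup.neg_mem _ hx }
  have hHm : ∀ g, g ∈ H ↔ of' g ∈ AddSubgroup.closure (Set.range a) := fun g => Iff.rfl
  have hcH : commutator G ≤ H := by
    intro g hg
    rw [hHm, hof_comm g hg]
    exact AddSubgroup.zero_mem _
  have hHn : H.Normal := by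
    constructor
    intro x hx g
    rw [hHm] at hx ⊢
    rw [hof_mul, hof_mul, hof_inv]
    have : of' g + of' x + -of' g = of' x := by abel
    rw [this]
    exact hx
  have hdiv : ∀ (q : ℕ), 0 < q → ∀ g : G, ∃ y, g⁻¹ * y ^ q ∈ H := by
    intro q hq g
    obtain ⟨b, hb, y', e⟩ := hdivA q hq (of' g)
    obtain ⟨y, hy⟩ := hof_surj y'
    refine ⟨y, ?_⟩
    rw [hHm, hof_mul, hof_inv, hof_pow, hy, e]
    have : -(b + q • y') + q • y' = -b := by abel
    rw [this]
    exact AddSubgroup.neg_mem _ hb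
  -- lifts of the basis elements which are p-elements
  have hlift : ∀ i, ∃ x : G, of' x = a i ∧ ∃ k : ℕ, x ^ (p i ^ k) = 1 := by
    intro i
    obtain ⟨g, hg⟩ := hof_surj (a i)
    obtain ⟨N, hN, hgN⟩ := hL.torsion g
    obtain ⟨k, m', hm', e⟩ := Nat.exists_eq_pow_mul_and_not_dvd hN.ne' (p i) (hp i).ne_one
    have hcop : Nat.Coprime m' (p i ^ (n i + 1)) :=
      ((Nat.Prime.coprime_iff_not_dvd (hp i)).mpr hm').symm.pow_right _
    obtain ⟨z, hz1, hz2⟩ := Nat.chineseRemainder hcop 0 1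
    refine ⟨g ^ z, ?_, k, ?_⟩
    · rw [hof_pow, hg]
      have h1 : ((p i ^ (n i + 1) : ℕ) : ℤ) ∣ ((1 : ℕ) : ℤ) - (z : ℤ) := hz2.dvd
      obtain ⟨t, ht⟩ := h1
      have h2 : (z : ℤ) = 1 - t * ((p i ^ (n i + 1) : ℕ) : ℤ) := by
        have : (z : ℤ) = 1 - (((1 : ℕ) : ℤ) - (z : ℤ)) := by push_cast; ring
        rw [this, ht]
        ring
      rw [← natCast_zsmul, h2, sub_smul, one_smul, mul_smul, natCast_zsmul, hpa i, smul_zero,
        sub_zero]
    · obtain ⟨t, ht⟩ := (Nat.modEq_zero_iff_dvd.mp hz1)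
      rw [← pow_mul, ht]
      have : m' * t * p i ^ k = N * t := by rw [e]; ring
      rw [this, pow_mul, hgN, one_pow]
  choose x hx hxk using hlift
  have hxH : ∀ i, x i ∈ H := fun i => by
    rw [hHm, hx]
    exact AddSubgroup.subset_closure ⟨i, rfl⟩
  -- coordinates
  let Ψ : (I →₀ ℤ) →+ Additive (Abelianization G) :=
    Finsupp.liftAddHom (fun i => (zmultiplesHom (Additive (Abelianization G))) (a i))
  have hΨ : ∀ c, Ψ c = c.sum fun i m => m • a i := by
    intro c
    change (Finsupp.liftAddHom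
      (fun i => (zmultiplesHom (Additive (Abelianization G))) (a i))) c = _
    rw [Finsupp.liftAddHom_apply]
    rfl
  have hcoord : ∀ h : H, ∃ c : I →₀ ℤ, Ψ c = of' (h : G) := by
    intro h
    have h1 : AddSubgroup.closure (Set.range a) ≤ Ψ.range := by
      rw [AddSubgroup.closure_le]
      rintro _ ⟨i, rfl⟩
      refine ⟨Finsupp.single i 1, ?_⟩
      rw [hΨ, Finsupp.sum_single_index (by simp), one_smul]
    exact h1 ((hHm _).mp h.2)
  choose c hc using hcoord
  have huniq : ∀ c c' : I →₀ ℤ, Ψ c = Ψ c' → ∀ i,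
      ((c i : ℤ) : ZMod (p i ^ (n i + 1))) = ((c' i : ℤ) : ZMod (p i ^ (n i + 1))) := by
    intro c c' h i
    have h1 : Ψ (c - c') = 0 := by rw [map_sub, h, sub_self]
    have h2 : ((p i ^ (n i + 1) : ℕ) : ℤ) ∣ (c - c') i := by
      by_cases hi : i ∈ (c - c').support
      · refine hind (c - c').support (fun i => (c - c') i) ?_ i hi
        rw [hΨ] at h1
        exact h1
      · rw [Finsupp.notMem_support_iff] at hi
        rw [hi]
        exact dvd_zero _
    rw [← sub_eq_zero, ← Int.cast_sub]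
    rw [Finsupp.sub_apply] at h2
    exact (ZMod.intCast_zmod_eq_zero_iff_dvd _ _).mpr h2
  let φ : ∀ i, H →* Multiplicative (ZMod (p i ^ (n i + 1))) := fun i =>
    MonoidHom.mk' (fun h => Multiplicative.ofAdd ((c h i : ℤ) : ZMod (p i ^ (n i + 1)))) (by
      intro h h'
      rw [← ofAdd_add, ← Int.cast_add, ← Finsupp.add_apply]
      congr 1
      apply huniq
      rw [map_add, hc, hc, hc, Subgroup.coe_mul, hof_mul])
  have hφ : ∀ i h, φ i h = Multiplicative.ofAdd ((c h i : ℤ) : ZMod (p i ^ (n i + 1))) :=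
    fun i h => rfl
  have hφ' : ∀ i (h : H) (c' : I →₀ ℤ), Ψ c' = of' (h : G) →
      φ i h = Multiplicative.ofAdd ((c' i : ℤ) : ZMod (p i ^ (n i + 1))) := by
    intro i h c' hc'
    rw [hφ, huniq (c h) c' ((hc h).trans hc'.symm) i]
  have hΨx : ∀ i, Ψ (Finsupp.single i 1) = of' (x i) := by
    intro i
    rw [hΨ, Finsupp.sum_single_index (by simp), one_smul, hx]
  let D : CycData H I :=
    { x := fun i => ⟨x i, hxH i⟩
      q := fun i => p i ^ (n i + 1)
      φ := φ
      hq := fun i => (pow_pos (hp i).pos _).ne'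
      hp := by
        intro i
        obtain ⟨k, hk⟩ := hxk i
        exact ⟨p i, k, n i + 1, hp i, Subtype.ext hk, rfl⟩
      hφx := by
        intro i
        rw [hφ' i ⟨x i, hxH i⟩ _ (hΨx i)]
        simp
      hφxj := by
        intro i j hij
        rw [hφ' i ⟨x j, hxH j⟩ _ (hΨx j), Finsupp.single_apply, if_neg (Ne.symm hij)]
        simp
      hfin := by
        intro h
        refine (c h).hasFiniteSupport.subset ?_
        intro i hi h0
        apply hi
        change φ i h = 1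
        rw [hφ, h0]
        simp
      hker := by
        intro h hh
        have h1 : of' (h : G) = 0 := by
          rw [← hc h, hΨ]
          apply Finset.sum_eq_zero
          intro i _
          have h2 := hh i
          rw [hφ] at h2
          have h3 : ((c h i : ℤ) : ZMod (p i ^ (n i + 1))) = 0 := Multiplicative.ofAdd.injective h2
          obtain ⟨t, ht⟩ := (ZMod.intCast_zmod_eq_zero_iff_dvd _ _).mp h3
          change (c h i) • a i = 0
          rw [ht, mul_comm, mul_smul, natCast_zsmul, hpa i, smul_zero]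
        have h2 := commutator_le_map hL H hHn hdiv (hof_ker _ h1)
        obtain ⟨w, hw, e⟩ := h2
        have : w = h := Subtype.ext e
        exact this ▸ hw }
  exact ⟨H, hHn, D.sdf (hL.subgroup H) (hR.subgroup H), hcH, hdiv⟩

end Pool.Agent.Helper33.LN
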