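import Mathlib

set_option autoImplicit false

namespace Pool.Agent.Helper33.LN

open Subgroup
open scoped commutatorElement

universe u v

/-- every finite subset lies in a finite normal subgroup -/
def LocNormal (G : Type u) [Group G] : Prop :=
  ∀ s : Finset G, ∃ N : Subgroup G, N.Normal ∧ (N : Set G).Finite ∧ (↑s : Set G) ⊆ (N : Set G)

/-- residually finite -/
def ResFin (G : Type u) [Group G] : Prop :=
  ∀ g : G, g ≠ 1 → ∃ N : Subgroup G, N.Normal ∧ N.FiniteIndex ∧ g ∉ N

/-- data witnessing that the abelianization is a direct sum of finite cyclic groups of prime power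
order -/
structure CycData (G : Type u) [Group G] (I : Type v) where
  x : I → G
  q : I → ℕ
  φ : ∀ i, G →* Multiplicative (ZMod (q i))
  hq : ∀ i, q i ≠ 0
  hp : ∀ i, ∃ p a n : ℕ, p.Prime ∧ x i ^ (p ^ a) = 1 ∧ q i = p ^ n
  hφx : ∀ i, φ i (x i) = Multiplicative.ofAdd 1
  hφxj : ∀ i j, i ≠ j → φ i (x j) = 1
  hfin : ∀ g, {i | φ i g ≠ 1}.Finite
  hker : ∀ g, (∀ i, φ i g = 1) → g ∈ commutator G

section locnormal

variable {G : Type u} [Group G]

theorem commSet_finite (hG : LocNormal G) (x : G) : (Set.range fun g : G => ⁅g, x⁆).Finite := by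
  obtain ⟨N, hN, hfin, hx⟩ := hG {x}
  refine hfin.subset ?_
  rintro _ ⟨g, rfl⟩
  have hxN : x ∈ N := hx (by simp)
  change g * x * g⁻¹ * x⁻¹ ∈ N
  exact N.mul_mem (hN.conj_mem x hxN g) (N.inv_mem hxN)

theorem conjSet_finite (hG : LocNormal G) (x : G) :
    (Set.range fun g : G => g * x * g⁻¹).Finite := by
  obtain ⟨N, hN, hfin, hx⟩ := hG {x}
  refine hfin.subset ?_
  rintro _ ⟨g, rfl⟩
  have hxN : x ∈ N := hx (by simp)
  exact hN.conj_mem x hxN g

theorem ker_finiteIndex {H : Type*} [Group H] [Finite H] (f : G →* H) : f.ker.FiniteIndex :=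
  ⟨by rw [index_ker]; exact Nat.card_pos.ne'⟩

theorem comap_finiteIndex {H : Type*} [Group H] (f : G →* H) (K : Subgroup H)
    (hK : K.FiniteIndex) : (K.comap f).FiniteIndex :=
  ⟨by
    rw [index_comap]
    intro h
    exact hK.index_ne_zero (index_eq_zero_of_relIndex_eq_zero h)⟩

theorem LocNormal.of_surjective {H : Type*} [Group H] (hG : LocNormal G) (f : G →* H)
    (hf : Function.Surjective f) : LocNormal H := by
  classical
  intro s
  obtain ⟨t, ht⟩ : ∃ t : Finset G, t.image f = s := by
    refine ⟨s.image (Function.surjInv hf), ?_⟩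
    rw [Finset.image_image]
    have : (f ∘ Function.surjInv hf) = id := by
      funext y
      exact Function.surjInv_eq hf y
    rw [this, Finset.image_id]
  obtain ⟨N, hN, hfin, hx⟩ := hG t
  refine ⟨N.map f, hN.map f hf, ?_, ?_⟩
  · rw [Subgroup.coe_map]
    exact hfin.image f
  · rw [← ht, Finset.coe_image, Subgroup.coe_map]
    exact Set.image_mono hx

theorem LocNormal.subgroup (hG : LocNormal G) (H : Subgroup G) : LocNormal H := by
  classical
  intro s
  obtain ⟨N, hN, hfin, hx⟩ := hG (s.image (fun h : H => (h : G)))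
  refine ⟨N.subgroupOf H, hN.subgroupOf H, ?_, ?_⟩
  · have : ((N.subgroupOf H : Subgroup H) : Set H) = (fun h : H => (h : G)) ⁻¹' (N : Set G) := by
      ext y
      simp [Subgroup.mem_subgroupOf]
    rw [this]
    exact hfin.preimage (Subtype.val_injective.injOn)
  · intro y hy
    have : (y : G) ∈ (N : Set G) := hx (by
      rw [Finset.coe_image]
      exact ⟨y, hy, rfl⟩)
    exact this

theorem ResFin.subgroup (hG : ResFin G) (H : Subgroup G) : ResFin H := by
  intro g hg
  have hg' : (g : G) ≠ 1 := by
    intro h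
    exact hg (Subtype.ext h)
  obtain ⟨N, hN, hfi, hgN⟩ := hG g hg'
  refine ⟨N.subgroupOf H, hN.subgroupOf H, ?_, ?_⟩
  · infer_instance
  · intro h
    exact hgN (Subgroup.mem_subgroupOf.mp h)

theorem countable_closure {s : Set G} (hs : s.Countable) : (closure s : Set G).Countable := by
  have hc : Countable s := hs.to_subtype
  have h1 : Countable (FreeGroup s) := by
    unfold FreeGroup
    infer_instance
  have h2 : ((FreeGroup.lift (fun y : s => (y : G))).range : Set G) = (closure s : Set G) := by
    rw [FreeGroup.range_lift_eq_closure, Subtype.range_coe]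
  rw [← h2, MonoidHom.coe_range]
  exact Set.countable_range _

end locnormal

namespace CycData

variable {G : Type u} [Group G] {I : Type v} (D : CycData G I)

theorem comm_le_ker {H : Type*} [CommGroup H] (f : G →* H) : commutator G ≤ f.ker :=
  Abelianization.commutator_subset_ker f

theorem z_mem (i : I) : D.x i ^ D.q i ∈ commutator G := by
  apply D.hker
  intro j
  by_cases h : j = i
  · subst h
    rw [map_pow, D.hφx, ← ofAdd_nsmul]
    simp
  · rw [map_pow, D.hφxj j i h, one_pow]

theorem pow_gcd_mem {N : Subgroup G} {x : G} {a b : ℕ} (ha : x ^ a ∈ N) (hb : x ^ b ∈ N) :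
    x ^ (Nat.gcd a b) ∈ N := by
  have h : x ^ ((Nat.gcd a b : ℕ) : ℤ) ∈ N := by
    rw [Nat.gcd_eq_gcd_ab, zpow_add, zpow_mul, zpow_mul]
    refine N.mul_mem (N.zpow_mem ?_ _) (N.zpow_mem ?_ _)
    · rw [zpow_natCast]; exact ha
    · rw [zpow_natCast]; exact hb
  rwa [zpow_natCast] at h

theorem z_mem_of_not_dvd {N : Subgroup G} (hN : N.Normal) (i : I)
    (h : ¬ D.q i ∣ N.index) : D.x i ^ D.q i ∈ N := by
  obtain ⟨p, a, n, hp, hx, hq⟩ := D.hp i
  have h1 : D.x i ^ N.index ∈ N := Subgroup.pow_index_mem N (D.x i)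
  have h2 : D.x i ^ (p ^ a) ∈ N := by rw [hx]; exact N.one_mem
  have h3 := pow_gcd_mem h1 h2
  obtain ⟨b, hb, hb'⟩ := (Nat.dvd_prime_pow hp).1 (Nat.gcd_dvd_right N.index (p ^ a))
  rw [hb'] at h3
  have h4 : p ^ b ∣ N.index := hb' ▸ Nat.gcd_dvd_left N.index (p ^ a)
  have h5 : b < n := by
    by_contra hcon
    push Not at hcon
    exact h (hq ▸ (pow_dvd_pow p hcon).trans h4)
  obtain ⟨c, hc⟩ := pow_dvd_pow p h5.le
  rw [hq, hc, pow_mul]
  exact N.pow_mem h3 c

/-- the generation formula -/
theorem hom_eq {H : Type*} [CommGroup H] (τ : G →* H) (g : G) :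
    τ g = ∏ i ∈ (D.hfin g).toFinset, τ (D.x i) ^ (Multiplicative.toAdd (D.φ i g)).val := by
  classical
  -- work in the abelianization
  have key : Abelianization.of g = ∏ i ∈ (D.hfin g).toFinset,
      Abelianization.of (D.x i) ^ (Multiplicative.toAdd (D.φ i g)).val := by
    set P := ∏ i ∈ (D.hfin g).toFinset,
      Abelianization.of (D.x i) ^ (Multiplicative.toAdd (D.φ i g)).val with hP
    obtain ⟨g', hg'⟩ : ∃ g', Abelianization.of g' = P⁻¹ * Abelianization.of g :=
      QuotientGroup.mk_surjective _
    have h1 : ∀ i, D.φ i g' = 1 := by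
      intro i
      have e1 : D.φ i g' = Abelianization.lift (D.φ i) (Abelianization.of g') := by simp
      rw [e1, hg', map_mul, map_inv, hP, map_prod]
      have e2 : ∀ j ∈ (D.hfin g).toFinset, Abelianization.lift (D.φ i)
          (Abelianization.of (D.x j) ^ (Multiplicative.toAdd (D.φ j g)).val) =
          if j = i then D.φ i g else 1 := by
        intro j _
        rw [map_pow, Abelianization.lift_apply_of]
        by_cases hji : j = i
        · subst hji
          rw [if_pos rfl, D.hφx, ← ofAdd_nsmul]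
          haveI : NeZero (D.q j) := ⟨D.hq j⟩
          rw [nsmul_eq_mul, mul_one, ZMod.natCast_zmod_val]
          rfl
        · rw [if_neg hji, D.hφxj i j (Ne.symm hji), one_pow]
      rw [Finset.prod_congr rfl e2, Finset.prod_ite_eq', Abelianization.lift_apply_of]
      split_ifs with h
      · simp
      · have : D.φ i g = 1 := by
          by_contra hne
          exact h ((D.hfin g).mem_toFinset.mpr hne)
        rw [this]; simp
    have h2 : g' ∈ commutator G := D.hker g' h1
    have h3 : Abelianization.of g' = 1 := by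
      rw [← MonoidHom.mem_ker, Abelianization.ker_of]
      exact h2
    rw [h3] at hg'
    exact (inv_mul_eq_one.mp hg'.symm).symm
  have h4 : τ g = Abelianization.lift τ (Abelianization.of g) := by simp
  rw [h4, key, map_prod]
  refine Finset.prod_congr rfl ?_
  intro i _
  rw [map_pow, Abelianization.lift_apply_of]

/-- G is generated by its commutator subgroup and the `x i` -/
theorem closure_eq_top : closure ((commutator G : Set G) ∪ Set.range D.x) = ⊤ := by
  classical
  set K := closure ((commutator G : Set G) ∪ Set.range D.x) with hK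
  have hle : commutator G ≤ K := fun g hg => subset_closure (Or.inl hg)
  have hx : ∀ i, D.x i ∈ K := fun i => subset_closure (Or.inr ⟨i, rfl⟩)
  have hn : K.Normal := by
    constructor
    intro n hn g
    have : g * n * g⁻¹ = ⁅g, n⁆ * n := by simp [commutatorElement_def]
    rw [this]
    refine K.mul_mem (hle ?_) hn
    exact Subgroup.commutator_mem_commutator (Subgroup.mem_top _) (Subgroup.mem_top _)
  rw [eq_top_iff]
  intro g _
  letI : CommGroup (G ⧸ K) :=
    { (inferInstance : Group (G ⧸ K)) with
      mul_comm := by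
        intro a b
        obtain ⟨a, rfl⟩ := QuotientGroup.mk_surjective a
        obtain ⟨b, rfl⟩ := QuotientGroup.mk_surjective b
        rw [← QuotientGroup.mk_mul, ← QuotientGroup.mk_mul, QuotientGroup.eq]
        apply hle
        have : (a * b)⁻¹ * (b * a) = ⁅b⁻¹, a⁻¹⁆ := by simp [commutatorElement_def, mul_assoc]
        rw [this]
        exact Subgroup.commutator_mem_commutator (Subgroup.mem_top _) (Subgroup.mem_top _) }
  have h1 := D.hom_eq (QuotientGroup.mk' K) g
  have h2 : ∏ i ∈ (D.hfin g).toFinset,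
      (QuotientGroup.mk' K) (D.x i) ^ (Multiplicative.toAdd (D.φ i g)).val = 1 := by
    apply Finset.prod_eq_one
    intro i _
    have : (QuotientGroup.mk' K) (D.x i) = 1 := (QuotientGroup.eq_one_iff _).mpr (hx i)
    rw [this, one_pow]
  rw [h2] at h1
  exact (QuotientGroup.eq_one_iff _).mp h1

/-- induction principle: a subgroup containing commutator and all x i is everything -/
theorem eq_top_of (K : Subgroup G) (h1 : commutator G ≤ K) (h2 : ∀ i, D.x i ∈ K) : K = ⊤ := by
  rw [eq_top_iff, ← D.closure_eq_top, closure_le]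
  rintro g (hg | ⟨i, rfl⟩)
  · exact h1 hg
  · exact h2 i

/-- the family of finite index normal subgroups adapted to level `n` -/
def NN (n : ℕ) : Set (Subgroup G) :=
  {N | N.Normal ∧ N.FiniteIndex ∧ ∀ i, ¬ D.q i ∣ n → D.x i ^ D.q i ∈ N}

theorem mem_NN_index {N : Subgroup G} (hN : N.Normal) (hf : N.FiniteIndex) :
    N ∈ D.NN N.index :=
  ⟨hN, hf, fun i hi => D.z_mem_of_not_dvd hN i hi⟩

theorem mem_NN_zero {N : Subgroup G} (hN : N.Normal) (hf : N.FiniteIndex) : N ∈ D.NN 0 :=
  ⟨hN, hf, fun i hi => absurd (dvd_zero _) hi⟩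

end CycData

end Pool.Agent.Helper33.LN
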