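import Pool.Agent.Helper33.LN.Good

set_option autoImplicit false

namespace Pool.Agent.Helper33.LN

open Subgroup
open scoped commutatorElement IsMulCommutative

universe u v

section closure

variable {S : Type u}

/-- iteration -/
def iter (F1 : S → Set S) (F2 : S → S → Set S) (X : Set S) : ℕ → Set S
  | 0 => X
  | n + 1 => iter F1 F2 X n ∪ (⋃ a ∈ iter F1 F2 X n, F1 a) ∪
      (⋃ a ∈ iter F1 F2 X n, ⋃ b ∈ iter F1 F2 X n, F2 a b)

theorem exists_closed (F1 : S → Set S) (h1 : ∀ a, (F1 a).Countable) (F2 : S → S → Set S)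
    (h2 : ∀ a b, (F2 a b).Countable) (X : Set S) (hX : X.Countable) :
    ∃ Y : Set S, X ⊆ Y ∧ Y.Countable ∧ (∀ a ∈ Y, F1 a ⊆ Y) ∧
      (∀ a ∈ Y, ∀ b ∈ Y, F2 a b ⊆ Y) := by
  have hmono : Monotone (iter F1 F2 X) := by
    apply monotone_nat_of_le_succ
    intro n a ha
    exact Or.inl (Or.inl ha)
  refine ⟨⋃ n, iter F1 F2 X n, fun a ha => Set.mem_iUnion.mpr ⟨0, ha⟩, ?_, ?_, ?_⟩
  · apply Set.countable_iUnion
    intro n
    induction n with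
    | zero => exact hX
    | succ n ih =>
      refine (ih.union (ih.biUnion fun a _ => h1 a)).union ?_
      exact ih.biUnion fun a _ => ih.biUnion fun b _ => h2 a b
  · intro a ha
    obtain ⟨n, hn⟩ := Set.mem_iUnion.mp ha
    intro b hb
    refine Set.mem_iUnion.mpr ⟨n + 1, Or.inl (Or.inr ?_)⟩
    exact Set.mem_iUnion₂.mpr ⟨a, hn, hb⟩
  · intro a ha b hb
    obtain ⟨n, hn⟩ := Set.mem_iUnion.mp ha
    obtain ⟨m, hm⟩ := Set.mem_iUnion.mp hb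
    intro c hc
    refine Set.mem_iUnion.mpr ⟨max n m + 1, Or.inr ?_⟩
    exact Set.mem_iUnion₂.mpr ⟨a, hmono (le_max_left n m) hn,
      Set.mem_iUnion₂.mpr ⟨b, hmono (le_max_right n m) hm, hc⟩⟩

end closure

section pair

variable {G : Type u} [Group G] {I : Type v} {D : CycData G I} {U V : Subgroup G}

theorem Good.sepU (h : Good D U V) (hR : ResFin G) {g : G} (hg : g ∉ U) :
    ∃ N : Subgroup G, (N.Normal ∧ N.FiniteIndex) ∧ U ≤ N ∧ g ∉ N := by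
  by_cases hc : g ∈ commutator G
  · obtain ⟨a, ha, b, hb, e⟩ := h.sup g hc
    have hb1 : b ≠ 1 := by
      rintro rfl
      rw [mul_one] at e
      exact hg (e ▸ ha)
    obtain ⟨N, hN, hf, hbN⟩ := hR b hb1
    obtain ⟨N', hN', hUN', hbN'⟩ := h.lemma1 0 hb (D.mem_NN_zero hN hf) hbN
    refine ⟨N', ⟨hN'.1, hN'.2.1⟩, hUN', ?_⟩
    intro hgN
    apply hbN'
    have : b = a⁻¹ * g := by rw [e, inv_mul_cancel_left]
    rw [this]
    exact N'.mul_mem (N'.inv_mem (hUN' ha)) hgN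
  · have : ∃ i, D.φ i g ≠ 1 := by
      by_contra hcon
      push Not at hcon
      exact hc (D.hker g hcon)
    obtain ⟨i, hi⟩ := this
    have hne : NeZero (D.q i) := ⟨D.hq i⟩
    have hf : Finite (Multiplicative (ZMod (D.q i))) := inferInstanceAs (Finite (ZMod (D.q i)))
    exact ⟨(D.φ i).ker, ⟨inferInstance, ker_finiteIndex _⟩,
      h.leU.trans (CycData.comm_le_ker (D.φ i)), hi⟩

/-- countable elementary pairs -/
structure EPair (D : CycData G I) (U V X : Subgroup G) (NS : Set (Subgroup G)) : Prop where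
  hXc : (X : Set G).Countable
  hXn : X.Normal
  hXV : ∀ g ∈ X, ∀ a ∈ U, ∀ b ∈ V, g = a * b → b ∈ X
  hN : ∀ N ∈ NS, N.Normal ∧ N.FiniteIndex ∧ U ≤ N
  hNinf : ∀ N ∈ NS, ∀ N' ∈ NS, N ⊓ N' ∈ NS
  hNtop : ⊤ ∈ NS
  hXN : ∀ N ∈ NS, ∀ g : G, ∃ g1 ∈ X, g1⁻¹ * g ∈ N
  hsep : ∀ g ∈ X, g ∉ U → ∃ N ∈ NS, g ∉ N
  hsep2 : ∀ v ∈ X, v ∈ V → ∀ n, (∃ N ∈ D.NN n, v ∉ N) → ∃ N ∈ NS, N ∈ D.NN n ∧ v ∉ N

theorem Good.exists_epair (h : Good D U V) (hL : LocNormal G) (hR : ResFin G) (v0 : G) :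
    ∃ (X : Subgroup G) (NS : Set (Subgroup G)), EPair D U V X NS ∧ v0 ∈ X := by
  classical
  -- choice functions
  have hn1 : ∀ g : G, ∃ N : Subgroup G, (N.Normal ∧ N.FiniteIndex) ∧ U ≤ N ∧ (g ∉ U → g ∉ N) := by
    intro g
    by_cases hg : g ∈ U
    · exact ⟨⊤, ⟨inferInstance, inferInstance⟩, le_top, fun h => absurd hg h⟩
    · obtain ⟨N, h1, h2, h3⟩ := h.sepU hR hg
      exact ⟨N, h1, h2, fun _ => h3⟩
  choose n1 hn1a hn1b hn1c using hn1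
  have hn2 : ∀ (g : G) (n : ℕ), ∃ N : Subgroup G, (N.Normal ∧ N.FiniteIndex) ∧ U ≤ N ∧
      (g ∈ V → (∃ N ∈ D.NN n, g ∉ N) → N ∈ D.NN n ∧ g ∉ N) := by
    intro g n
    by_cases hg : g ∈ V ∧ ∃ N ∈ D.NN n, g ∉ N
    · obtain ⟨hgV, N, hN, hgN⟩ := hg
      obtain ⟨N', hN', hU, hg'⟩ := h.lemma1 n hgV hN hgN
      exact ⟨N', ⟨hN'.1, hN'.2.1⟩, hU, fun _ _ => ⟨hN', hg'⟩⟩
    · refine ⟨⊤, ⟨inferInstance, inferInstance⟩, le_top, fun h1 h2 => absurd ⟨h1, h2⟩ hg⟩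
  choose n2 hn2a hn2b hn2c using hn2
  let F1 : G ⊕ Subgroup G → Set (G ⊕ Subgroup G) := fun s =>
    match s with
    | Sum.inl g => {Sum.inl g⁻¹} ∪ (Sum.inl '' Set.range (fun t : G => t * g * t⁻¹)) ∪
        (Sum.inl '' {b | b ∈ V ∧ ∃ a ∈ U, g = a * b}) ∪ {Sum.inr (n1 g)} ∪
        Set.range (fun n => Sum.inr (n2 g n))
    | Sum.inr N => if N.FiniteIndex then Sum.inl '' Set.range (fun c : G ⧸ N => Quotient.out c)
        else ∅
  let F2 : G ⊕ Subgroup G → G ⊕ Subgroup G → Set (G ⊕ Subgroup G) := fun s t =>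
    match s, t with
    | Sum.inl g, Sum.inl g' => {Sum.inl (g * g')}
    | Sum.inr N, Sum.inr N' => {Sum.inr (N ⊓ N')}
    | _, _ => ∅
  have hF1 : ∀ a, (F1 a).Countable := by
    rintro (g | N)
    · refine ((((Set.countable_singleton _).union ?_).union ?_).union
        (Set.countable_singleton _)).union (Set.countable_range _)
      · exact (conjSet_finite hL g).countable.image _
      · apply Set.Countable.image
        apply Set.Subsingleton.countable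
        rintro b ⟨hb, a, ha, e⟩ b' ⟨hb', a', ha', e'⟩
        exact (h.unique ha hb ha' hb' (e ▸ e')).2
    · change (if N.FiniteIndex then Sum.inl '' Set.range (fun c : G ⧸ N => Quotient.out c)
        else ∅ : Set (G ⊕ Subgroup G)).Countable
      split_ifs with hN
      · exact (Set.finite_range _).countable.image _
      · exact Set.countable_empty
  have hF2 : ∀ a b, (F2 a b).Countable := by
    rintro (g | N) (g' | N')
    · exact Set.countable_singleton _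
    · exact Set.countable_empty
    · exact Set.countable_empty
    · exact Set.countable_singleton _
  obtain ⟨Y, hXY, hYc, hY1, hY2⟩ := exists_closed F1 hF1 F2 hF2
    {Sum.inl v0, Sum.inl 1, Sum.inr ⊤} (by
      refine Set.Finite.countable ?_
      simp)
  have c1 : ∀ g, Sum.inl g ∈ Y → Sum.inl g⁻¹ ∈ Y := fun g hg =>
    hY1 _ hg (Or.inl (Or.inl (Or.inl (Or.inl rfl))))
  have c2 : ∀ g, Sum.inl g ∈ Y → ∀ t, Sum.inl (t * g * t⁻¹) ∈ Y := fun g hg t =>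
    hY1 _ hg (Or.inl (Or.inl (Or.inl (Or.inr ⟨_, ⟨t, rfl⟩, rfl⟩))))
  have c3 : ∀ g, Sum.inl g ∈ Y → ∀ a ∈ U, ∀ b ∈ V, g = a * b → Sum.inl b ∈ Y :=
    fun g hg a ha b hb e =>
    hY1 _ hg (Or.inl (Or.inl (Or.inr ⟨_, ⟨hb, a, ha, e⟩, rfl⟩)))
  have c4 : ∀ g, Sum.inl g ∈ Y → Sum.inr (n1 g) ∈ Y := fun g hg =>
    hY1 _ hg (Or.inl (Or.inr rfl))
  have c5 : ∀ g, Sum.inl g ∈ Y → ∀ n, Sum.inr (n2 g n) ∈ Y := fun g hg n =>
    hY1 _ hg (Or.inr ⟨n, rfl⟩)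
  have c6 : ∀ N : Subgroup G, Sum.inr N ∈ Y → N.FiniteIndex → ∀ c : G ⧸ N,
      Sum.inl (Quotient.out c) ∈ Y := by
    intro N hN hf c
    apply hY1 _ hN
    change _ ∈ (if N.FiniteIndex then Sum.inl '' Set.range (fun c : G ⧸ N => Quotient.out c)
        else ∅ : Set (G ⊕ Subgroup G))
    rw [if_pos hf]
    exact ⟨_, ⟨c, rfl⟩, rfl⟩
  have c7 : ∀ g g', Sum.inl g ∈ Y → Sum.inl g' ∈ Y → Sum.inl (g * g') ∈ Y := fun g g' hg hg' =>
    hY2 _ hg _ hg' rfl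
  have c8 : ∀ N N' : Subgroup G, Sum.inr N ∈ Y → Sum.inr N' ∈ Y → Sum.inr (N ⊓ N') ∈ Y :=
    fun N N' hN hN' => hY2 _ hN _ hN' rfl
  let X : Subgroup G :=
    { carrier := {g | Sum.inl g ∈ Y}
      mul_mem' := fun {a b} ha hb => c7 a b ha hb
      one_mem' := hXY (by simp)
      inv_mem' := fun {a} ha => c1 a ha }
  have hX : ∀ g, g ∈ X ↔ Sum.inl g ∈ Y := fun g => Iff.rfl
  refine ⟨X, {N | Sum.inr N ∈ Y ∧ N.Normal ∧ N.FiniteIndex ∧ U ≤ N}, ?_, hXY (by simp)⟩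
  refine ⟨?_, ?_, ?_, ?_, ?_, ?_, ?_, ?_, ?_⟩
  · exact hYc.preimage Sum.inl_injective
  · exact ⟨fun n hn g => c2 n hn g⟩
  · intro g hg a ha b hb e
    exact c3 g hg a ha b hb e
  · intro N hN
    exact hN.2
  · rintro N ⟨h1, h2, h3, h4⟩ N' ⟨h1', h2', h3', h4'⟩
    exact ⟨c8 _ _ h1 h1', inferInstance, inferInstance, le_inf h4 h4'⟩
  · exact ⟨hXY (by simp), inferInstance, inferInstance, le_top⟩
  · rintro N ⟨h1, h2, h3, h4⟩ g
    refine ⟨Quotient.out (g : G ⧸ N), c6 N h1 h3 _, ?_⟩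
    rw [← QuotientGroup.eq]
    exact QuotientGroup.out_eq' _
  · intro g hg hgU
    exact ⟨n1 g, ⟨c4 g hg, (hn1a g).1, (hn1a g).2, hn1b g⟩, hn1c g hgU⟩
  · intro v hv hvV n hn
    have := hn2c v n hvV hn
    exact ⟨n2 v n, ⟨c5 v hv n, (hn2a v n).1, (hn2a v n).2, hn2b v n⟩, this.1, this.2⟩

end pair

end Pool.Agent.Helper33.LN
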