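import Pool.Agent.Helper33.LN.Basic

set_option autoImplicit false

namespace Pool.Agent.Helper33.LN

open Subgroup
open scoped commutatorElement IsMulCommutative

universe u v

section prelim

variable {K : Type u} [Group K]

/-- finite sets avoid some finite index normal subgroup -/
theorem ResFin.finite_set (hR : ResFin K) {F : Set K} (hF : F.Finite) :
    ∃ N : Subgroup K, N.Normal ∧ N.FiniteIndex ∧ ∀ f ∈ F, f ∈ N → f = 1 := by
  induction F, hF using Set.Finite.induction_on with
  | empty => exact ⟨⊤, inferInstance, inferInstance, by simp⟩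
  | @insert a s _ _ ih =>
    obtain ⟨N, hN, hf, hs⟩ := ih
    by_cases ha : a = 1
    · refine ⟨N, hN, hf, ?_⟩
      rintro f (rfl | hfs) hfN
      · exact ha
      · exact hs f hfs hfN
    · obtain ⟨N', hN', hf', haN'⟩ := hR a ha
      refine ⟨N ⊓ N', inferInstance, inferInstance, ?_⟩
      rintro f (rfl | hfs) hfN
      · exact absurd hfN.2 haN'
      · exact hs f hfs hfN.1

/-- P. Hall style chain for a homomorphism with countable range -/
theorem exists_family_of_countable_range (hL : LocNormal K) (hR : ResFin K) (P : K →* K)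
    (hP : (P.range : Set K).Countable) :
    ∃ M : ℕ → Subgroup K, (∀ k, (M k).Normal ∧ (M k).FiniteIndex ∧ P.ker ≤ M k) ∧
      (∀ g, ∃ j, ∀ k, j ≤ k → g ∈ M k) ∧ (∀ w, P w = w → w ≠ 1 → ∃ k, w ∉ M k) := by
  classical
  obtain ⟨e, he⟩ := hP.exists_eq_range ⟨1, P.range.one_mem⟩
  have hnext : ∀ (F : {F : Subgroup K // F.Normal ∧ (F : Set K).Finite}) (x : K),
      ∃ F' : {F : Subgroup K // F.Normal ∧ (F : Set K).Finite}, F.1 ≤ F'.1 ∧ x ∈ F'.1 := by
    rintro ⟨F, hF, hFf⟩ x
    obtain ⟨N, hN, hNf, hs⟩ := hL (insert x hFf.toFinset)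
    refine ⟨⟨N, hN, hNf⟩, ?_, ?_⟩
    · intro y hy
      apply hs
      simp [hy]
    · apply hs
      simp
  choose nxt hnxt1 hnxt2 using hnext
  let F : ℕ → {F : Subgroup K // F.Normal ∧ (F : Set K).Finite} := fun k =>
    Nat.rec ⟨⊥, inferInstance, by simp⟩ (fun k F => nxt F (e k)) k
  have hF0 : (F 0).1 = ⊥ := rfl
  have hFs : ∀ k, F (k + 1) = nxt (F k) (e k) := fun k => rfl
  have hmono : Monotone (fun k => (F k).1) := by
    apply monotone_nat_of_le_succ
    intro k
    rw [hFs]
    exact hnxt1 _ _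
  have hmem : ∀ k, e k ∈ (F (k + 1)).1 := by
    intro k
    rw [hFs]
    exact hnxt2 _ _
  choose NF hNFn hNFf hNF using fun k => hR.finite_set (F k).2.2
  refine ⟨fun k => ((F k).1 ⊔ NF (k + 1)).comap P, ?_, ?_, ?_⟩
  · intro k
    have h1 := (F k).2.1
    have h2 := hNFn (k + 1)
    have h3 := hNFf (k + 1)
    have h4 : ((F k).1 ⊔ NF (k + 1)).FiniteIndex :=
      finiteIndex_of_le (H := NF (k + 1)) le_sup_right
    refine ⟨inferInstance, comap_finiteIndex P _ h4, ?_⟩
    intro g hg
    rw [Subgroup.mem_comap, MonoidHom.mem_ker.mp hg]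
    exact Subgroup.one_mem _
  · intro g
    have : P g ∈ Set.range e := he ▸ ⟨g, rfl⟩
    obtain ⟨j, hj⟩ := this
    refine ⟨j + 1, fun k hk => ?_⟩
    rw [Subgroup.mem_comap, ← hj]
    exact Subgroup.mem_sup_left (hmono hk (hmem j))
  · intro w hw hw1
    have : w ∈ Set.range e := he ▸ ⟨w, hw⟩
    obtain ⟨j, hj⟩ := this
    have hex : ∃ k, w ∈ (F k).1 := ⟨j + 1, hj ▸ hmem j⟩
    have hk := Nat.find_spec hex
    have hmin := fun m hm => Nat.find_min hex (m := m) hm
    obtain ⟨k, hkk⟩ : ∃ k, Nat.find hex = k + 1 := by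
      apply Nat.exists_eq_succ_of_ne_zero
      intro h0
      rw [h0] at hk
      exact hw1 (Subgroup.mem_bot.mp hk)
    rw [hkk] at hk
    have hkn : w ∉ (F k).1 := hmin k (by rw [hkk]; exact Nat.lt_succ_self k)
    refine ⟨k, ?_⟩
    rw [Subgroup.mem_comap, hw]
    have h1 := (F k).2.1
    rw [Subgroup.mem_sup_of_normal_left]
    rintro ⟨f, hf, n, hn, e1⟩
    have h2 : n = f⁻¹ * w := by rw [← e1, inv_mul_cancel_left]
    have h3 : n ∈ (F (k + 1)).1 := by
      rw [h2]
      exact Subgroup.mul_mem _ (Subgroup.inv_mem _ (hmono (Nat.le_succ k) hf)) hk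
    have h4 : n = 1 := hNF (k + 1) n h3 hn
    rw [h4, mul_one] at e1
    exact hkn (e1 ▸ hf)

/-- a decreasing sequence separating a countable set -/
theorem exists_seq (hR : ResFin K) {W : Set K} (hW : W.Countable) (h1 : (1 : K) ∈ W) :
    ∃ N : ℕ → Subgroup K, (∀ k, (N k).Normal ∧ (N k).FiniteIndex) ∧ Antitone N ∧
      ∀ w ∈ W, w ≠ 1 → ∃ k, w ∉ N k := by
  obtain ⟨e, he⟩ := hW.exists_eq_range ⟨1, h1⟩
  have : ∀ k, ∃ N : Subgroup K, N.Normal ∧ N.FiniteIndex ∧ (e k ≠ 1 → e k ∉ N) := by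
    intro k
    by_cases h : e k = 1
    · exact ⟨⊤, inferInstance, inferInstance, fun h' => absurd h h'⟩
    · obtain ⟨N, h1, h2, h3⟩ := hR _ h
      exact ⟨N, h1, h2, fun _ => h3⟩
  choose M hM1 hM2 hM3 using this
  refine ⟨fun k => ⨅ j : Fin (k + 1), M j, ?_, ?_, ?_⟩
  · intro k
    exact ⟨Subgroup.normal_iInf_normal fun i => hM1 i, Subgroup.finiteIndex_iInf fun i => hM2 i⟩
  · intro a b hab
    refine le_iInf fun j => ?_
    exact iInf_le_of_le (⟨j, by omega⟩ : Fin (b + 1)) le_rfl
  · intro w hw hw1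
    rw [he] at hw
    obtain ⟨k, rfl⟩ := hw
    refine ⟨k, ?_⟩
    intro hmem
    apply hM3 k hw1
    have := (Subgroup.mem_iInf.mp hmem) ⟨k, Nat.lt_succ_self k⟩
    exact this

end prelim

section main

variable {K : Type u} [Group K] {I : Type v} (D : CycData K I)

/-- if `t ^ q = 1` the power map factors through `ZMod q` -/
theorem exists_zmod_hom {A : Type*} [CommGroup A] (q : ℕ) (hq : q ≠ 0) (t : A) (ht : t ^ q = 1) :
    ∃ f : Multiplicative (ZMod q) →* A, f (Multiplicative.ofAdd 1) = t := by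
  have : NeZero q := ⟨hq⟩
  have hmod : ∀ n : ℕ, t ^ (n % q) = t ^ n := by
    intro n
    conv_rhs => rw [← Nat.mod_add_div n q, pow_add, pow_mul, ht, one_pow, mul_one]
  refine ⟨MonoidHom.mk' (fun a => t ^ (Multiplicative.toAdd a).val) ?_, ?_⟩
  · intro a b
    rw [toAdd_mul, ZMod.val_add, hmod, pow_add]
  · change t ^ (Multiplicative.toAdd (Multiplicative.ofAdd (1 : ZMod q))).val = t
    rw [toAdd_ofAdd, ZMod.val_one_eq_one_mod, hmod, pow_one]

/-- given central elements `t i` with `t i ^ q i = 1` there is a homomorphism to the center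
sending `x i` to `t i` -/
theorem CycData.exists_center_hom (t : I → center K) (ht : ∀ i, t i ^ D.q i = 1) :
    ∃ θ : K →* center K, ∀ i, θ (D.x i) = t i := by
  choose f hf using fun i => exists_zmod_hom (D.q i) (D.hq i) (t i) (ht i)
  have hsup : ∀ g : K, (Function.mulSupport fun i => f i (D.φ i g)).Finite := by
    intro g
    refine (D.hfin g).subset ?_
    intro i hi h
    apply hi
    change f i (D.φ i g) = 1
    rw [h, map_one]
  refine ⟨MonoidHom.mk' (fun g => ∏ᶠ i, f i (D.φ i g)) ?_, ?_⟩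
  · intro a b
    rw [← finprod_mul_distrib (hsup a) (hsup b)]
    apply finprod_congr
    intro i
    rw [map_mul, map_mul]
  · intro j
    change (∏ᶠ i, f i (D.φ i (D.x j))) = t j
    rw [finprod_eq_single _ j]
    · rw [D.hφx, hf]
    · intro i hi
      rw [D.hφxj i j hi, map_one]

theorem CycData.countable_case (hL : LocNormal K) (hR : ResFin K)
    (hc : (commutator K : Set K).Countable) :
    ∃ FF : Set (Subgroup K), (∀ N ∈ FF, N.Normal ∧ N.FiniteIndex) ∧
      (∀ g, {N | N ∈ FF ∧ g ∉ N}.Finite) ∧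
      (∀ w ∈ commutator K, w ≠ 1 → ∃ N ∈ FF, w ∉ N) ∧
      (∀ i, D.x i ^ D.q i = 1 → D.x i ∈ center K → ∀ N ∈ FF, D.x i ∈ N) := by
  classical
  have hcc : Countable (commutator K) := hc.to_subtype
  obtain ⟨N, hN, hNa, hNs⟩ := exists_seq hR hc (commutator K).one_mem
  have hcm : ∀ g x : K, ⁅g, x⁆ ∈ commutator K := fun g x =>
    Subgroup.commutator_mem_commutator (Subgroup.mem_top _) (Subgroup.mem_top _)
  -- every x commutes with some N k
  have hb : ∀ x : K, ∃ k, ∀ n ∈ N k, n * x = x * n := by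
    intro x
    have hfin := commSet_finite hL x
    have key : ∀ F : Set K, F.Finite → F ⊆ commutator K → ∃ k, ∀ f ∈ F, f ∈ N k → f = 1 := by
      intro F hF
      induction F, hF using Set.Finite.induction_on with
      | empty => exact fun _ => ⟨0, by simp⟩
      | @insert a s _ _ ih =>
        intro hsub
        obtain ⟨k, hk⟩ := ih ((Set.subset_insert _ _).trans hsub)
        by_cases ha : a = 1
        · refine ⟨k, ?_⟩
          rintro f (rfl | hfs) hfN
          · exact ha
          · exact hk f hfs hfN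
        · obtain ⟨k', hk'⟩ := hNs a (hsub (Set.mem_insert _ _)) ha
          refine ⟨max k k', ?_⟩
          rintro f (rfl | hfs) hfN
          · exact absurd (hNa (le_max_right k k') hfN) hk'
          · exact hk f hfs (hNa (le_max_left k k') hfN)
    obtain ⟨k, hk⟩ := key _ hfin (by
      rintro _ ⟨g, rfl⟩
      exact hcm g x)
    refine ⟨k, fun n hn => ?_⟩
    rw [← commutatorElement_eq_one_iff_mul_comm]
    apply hk _ ⟨n, rfl⟩
    have : ⁅n, x⁆ = n * (x * n⁻¹ * x⁻¹) := by simp [commutatorElement_def, mul_assoc]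
    change ⁅n, x⁆ ∈ N k
    rw [this]
    exact (N k).mul_mem hn ((hN k).1.conj_mem _ ((N k).inv_mem hn) x)
  choose kk hkk using hb
  -- invariants
  let δ : K → Σ k : ℕ, (K ⧸ N k → commutator K) := fun x =>
    ⟨kk x, fun c => ⟨⁅Quotient.out c, x⁆, hcm _ _⟩⟩
  have hδc : Countable (Σ k : ℕ, (K ⧸ N k → commutator K)) := by
    have : ∀ k, Countable (K ⧸ N k → commutator K) := by
      intro k
      have := (hN k).2
      infer_instance
    infer_instance
  have hδ : ∀ x y, δ x = δ y → x⁻¹ * y ∈ center K := by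
    intro x y hxy
    have h1 : kk x = kk y := congrArg Sigma.fst hxy
    have h2 : ∀ g : K, ⁅Quotient.out (g : K ⧸ N (kk x)), x⁆ =
        ⁅Quotient.out (g : K ⧸ N (kk y)), y⁆ := by
      have gen : ∀ (s s' : Σ k : ℕ, (K ⧸ N k → commutator K)), s = s' → ∀ g : K,
          s.2 (g : K ⧸ N s.1) = s'.2 (g : K ⧸ N s'.1) := by
        rintro s _ rfl g
        rfl
      intro g
      exact congrArg Subtype.val (gen _ _ hxy g)
    rw [Subgroup.mem_center_iff]
    intro g
    have conj : ∀ x : K, g * x * g⁻¹ = ⁅Quotient.out (g : K ⧸ N (kk x)), x⁆ * x := by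
      intro x
      set c := Quotient.out (g : K ⧸ N (kk x)) with hcdef
      have hn : c⁻¹ * g ∈ N (kk x) := by
        rw [← QuotientGroup.eq]
        exact QuotientGroup.out_eq' _
      have h3 := hkk x _ hn
      have h4 : g = c * (c⁻¹ * g) := by group
      rw [h4, commutatorElement_def]
      calc c * (c⁻¹ * g) * x * (c * (c⁻¹ * g))⁻¹ = c * ((c⁻¹ * g) * x) * (c⁻¹ * g)⁻¹ * c⁻¹ := by
            group
        _ = c * x * c⁻¹ * x⁻¹ * x := by rw [h3]; group
    have e1 := conj x
    have e2 := conj y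
    rw [h2 g] at e1
    have e3 : g * (x⁻¹ * y) * g⁻¹ = x⁻¹ * y := by
      calc g * (x⁻¹ * y) * g⁻¹ = (g * x * g⁻¹)⁻¹ * (g * y * g⁻¹) := by group
        _ = x⁻¹ * y := by rw [e1, e2]; group
    calc g * (x⁻¹ * y) = g * (x⁻¹ * y) * g⁻¹ * g := by group
      _ = x⁻¹ * y * g := by rw [e3]
  let Bad : I → Prop := fun i => ¬ (D.x i ^ D.q i = 1 ∧ D.x i ∈ center K)
  let Δ : I → (Σ k : ℕ, (K ⧸ N k → commutator K)) × ℕ × commutator K := fun i =>
    (δ (D.x i), D.q i, ⟨D.x i ^ D.q i, D.z_mem i⟩)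
  let ρ : {c // ∃ j, Bad j ∧ Δ j = c} → I := fun c => Classical.choose c.2
  have hρ : ∀ c, Bad (ρ c) ∧ Δ (ρ c) = c.1 := fun c => Classical.choose_spec c.2
  let r : I → I := fun i => if h : Bad i then ρ ⟨Δ i, i, h, rfl⟩ else i
  have hr : ∀ i (h : Bad i), r i = ρ ⟨Δ i, i, h, rfl⟩ := fun i h => dif_pos h
  have hrB : ∀ i, Bad i → Bad (r i) := fun i h => by rw [hr i h]; exact (hρ _).1
  have hrΔ : ∀ i, Bad i → Δ (r i) = Δ i := fun i h => by rw [hr i h]; exact (hρ _).2
  have hrr : ∀ i, Bad i → r (r i) = r i := by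
    intro i h
    have e1 : (⟨Δ (r i), r i, hrB i h, rfl⟩ : {c // ∃ j, Bad j ∧ Δ j = c}) = ⟨Δ i, i, h, rfl⟩ :=
      Subtype.ext (hrΔ i h)
    calc r (r i) = ρ ⟨Δ (r i), r i, hrB i h, rfl⟩ := hr (r i) (hrB i h)
      _ = ρ ⟨Δ i, i, h, rfl⟩ := by rw [e1]
      _ = r i := (hr i h).symm
  have hrJ : (r '' {i | Bad i}).Countable := by
    have : (Set.range ρ).Countable := by
      have : Countable {c // ∃ j, Bad j ∧ Δ j = c} := inferInstance
      exact Set.countable_range ρ
    refine this.mono ?_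
    rintro _ ⟨i, hi, rfl⟩
    exact ⟨_, (hr i hi).symm⟩
  -- the central elements
  have hcen : ∀ i, (if Bad i then (D.x (r i))⁻¹ * D.x i else D.x i) ∈ center K := by
    intro i
    split_ifs with h
    · exact hδ _ _ (congrArg Prod.fst (hrΔ i h))
    · exact (not_not.mp h).2
  let t : I → center K := fun i => ⟨_, hcen i⟩
  have htB : ∀ i, Bad i → ((t i : center K) : K) = (D.x (r i))⁻¹ * D.x i := fun i h => by
    change (if Bad i then (D.x (r i))⁻¹ * D.x i else D.x i) = _
    rw [if_pos h]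
  have htG : ∀ i, ¬ Bad i → ((t i : center K) : K) = D.x i := fun i h => by
    change (if Bad i then (D.x (r i))⁻¹ * D.x i else D.x i) = _
    rw [if_neg h]
  have htq : ∀ i, t i ^ D.q i = 1 := by
    intro i
    apply Subtype.ext
    rw [Subgroup.coe_pow, Subgroup.coe_one]
    by_cases h : Bad i
    · have h1 : D.q (r i) = D.q i := congrArg (fun z => z.2.1) (hrΔ i h)
      have h2 : D.x (r i) ^ D.q (r i) = D.x i ^ D.q i :=
        congrArg (fun z => ((z.2.2 : commutator K) : K)) (hrΔ i h)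
      have h3 : D.x i = D.x (r i) * (t i : K) := by rw [htB i h, mul_inv_cancel_left]
      have h4 : Commute (D.x (r i)) (t i : K) := (Subgroup.mem_center_iff.mp (t i).2) _
      have h5 : D.x i ^ D.q i = D.x (r i) ^ D.q i * (t i : K) ^ D.q i := by
        conv_lhs => rw [h3]
        exact h4.mul_pow _
      rw [← h2, h1] at h5
      exact (mul_eq_left.mp h5.symm)
    · rw [htG i h]
      exact (not_not.mp h).1
  obtain ⟨θ, hθ⟩ := D.exists_center_hom t htq
  have hθw : ∀ w ∈ commutator K, θ w = 1 := fun w hw => CycData.comm_le_ker θ hw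
  have hθt : ∀ i, θ ((t i : center K) : K) = t i := by
    intro i
    by_cases h : Bad i
    · rw [htB i h, map_mul, map_inv, hθ, hθ]
      have : t (r i) = 1 := by
        apply Subtype.ext
        rw [htB _ (hrB i h), hrr i h, inv_mul_cancel]
        rfl
      rw [this, inv_one, one_mul]
    · rw [htG i h, hθ]
  have hθθ : ∀ g, θ ((θ g : center K) : K) = θ g := by
    have : (θ.comp ((center K).subtype.comp θ)).eqLocus θ = ⊤ := by
      apply D.eq_top_of
      · intro w hw
        change θ ((θ w : center K) : K) = θ w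
        rw [hθw w hw, Subgroup.coe_one, map_one]
      · intro i
        change θ ((θ (D.x i) : center K) : K) = θ (D.x i)
        rw [hθ, hθt]
    intro g
    have hg : g ∈ (θ.comp ((center K).subtype.comp θ)).eqLocus θ := by
      rw [this]; exact Subgroup.mem_top g
    exact hg
  -- projection
  let P : K →* K := MonoidHom.mk' (fun g => g * ((θ g : center K) : K)⁻¹) (by
    intro a b
    have h1 := (Subgroup.mem_center_iff.mp (θ a).2) b
    have h2 : b * ((θ a : center K) : K)⁻¹ = ((θ a : center K) : K)⁻¹ * b := by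
      rw [eq_inv_mul_iff_mul_eq, ← mul_assoc, ← h1, mul_inv_cancel_right]
    have h3 := (Subgroup.mem_center_iff.mp (θ a).2) ((θ b : center K) : K)
    rw [map_mul, Subgroup.coe_mul, mul_inv_rev]
    calc a * b * (((θ b : center K) : K)⁻¹ * ((θ a : center K) : K)⁻¹)
        = a * b * (((θ a : center K) : K) * ((θ b : center K) : K))⁻¹ := by group
      _ = a * b * (((θ b : center K) : K) * ((θ a : center K) : K))⁻¹ := by rw [h3]
      _ = a * (b * ((θ a : center K) : K)⁻¹) * ((θ b : center K) : K)⁻¹ := by group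
      _ = a * ((θ a : center K) : K)⁻¹ * (b * ((θ b : center K) : K)⁻¹) := by rw [h2]; group)
  have hP : ∀ g, P g = g * ((θ g : center K) : K)⁻¹ := fun g => rfl
  have hPw : ∀ w ∈ commutator K, P w = w := by
    intro w hw
    rw [hP, hθw w hw, Subgroup.coe_one, inv_one, mul_one]
  have hPG : ∀ i, ¬ Bad i → P (D.x i) = 1 := by
    intro i h
    rw [hP, hθ, htG i h, mul_inv_cancel]
  have hPB : ∀ i, Bad i → P (D.x i) = D.x (r i) := by
    intro i h
    rw [hP, hθ, htB i h]
    group
  have hPr : (P.range : Set K).Countable := by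
    have h1 : P.range = closure (P '' ((commutator K : Set K) ∪ Set.range D.x)) := by
      rw [← MonoidHom.map_closure, D.closure_eq_top, MonoidHom.range_eq_map]
    rw [h1]
    apply countable_closure
    rw [Set.image_union]
    apply Set.Countable.union
    · exact hc.image _
    · refine ((Set.countable_singleton (1 : K)).union (hrJ.image D.x)).mono ?_
      rintro _ ⟨_, ⟨i, rfl⟩, rfl⟩
      by_cases h : Bad i
      · right
        rw [hPB i h]
        exact ⟨r i, ⟨i, h, rfl⟩, rfl⟩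
      · left
        exact hPG i h
  obtain ⟨M, hM1, hM2, hM3⟩ := exists_family_of_countable_range hL hR P hPr
  refine ⟨Set.range M, ?_, ?_, ?_, ?_⟩
  · rintro _ ⟨k, rfl⟩
    exact ⟨(hM1 k).1, (hM1 k).2.1⟩
  · intro g
    obtain ⟨j, hj⟩ := hM2 g
    refine ((Set.finite_lt_nat j).image M).subset ?_
    rintro _ ⟨⟨k, rfl⟩, hk⟩
    refine ⟨k, ?_, rfl⟩
    by_contra hcon
    exact hk (hj k (not_lt.mp hcon))
  · intro w hw hw1
    obtain ⟨k, hk⟩ := hM3 w (hPw w hw) hw1
    exact ⟨M k, ⟨k, rfl⟩, hk⟩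
  · rintro i h1 h2 _ ⟨k, rfl⟩
    apply (hM1 k).2.2
    rw [MonoidHom.mem_ker]
    exact hPG i (not_not.mpr ⟨h1, h2⟩)

end main

end Pool.Agent.Helper33.LN
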