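import Pool.Agent.Helper33.LN.Closing

set_option autoImplicit false

namespace Pool.Agent.Helper33.LN

open Subgroup
open scoped commutatorElement IsMulCommutative

universe u v

variable {G : Type u} [Group G] {I : Type v} {D : CycData G I} {U V X : Subgroup G}
  {NS : Set (Subgroup G)}

theorem EPair.exists_good_N (hP : EPair D U V X NS) {F : Set G} (hF : F.Finite) :
    ∃ N ∈ NS, ∀ f ∈ F, f ∈ N → f ∈ sInf NS := by
  induction F, hF using Set.Finite.induction_on with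
  | empty => exact ⟨⊤, hP.hNtop, by simp⟩
  | @insert a s _ _ ih =>
    obtain ⟨N, hN, hs⟩ := ih
    by_cases ha : a ∈ sInf NS
    · refine ⟨N, hN, ?_⟩
      rintro f (rfl | hf) hfN
      · exact ha
      · exact hs f hf hfN
    · have : ∃ N' ∈ NS, a ∉ N' := by
        by_contra hcon
        push Not at hcon
        exact ha (Subgroup.mem_sInf.mpr hcon)
      obtain ⟨N', hN', haN'⟩ := this
      refine ⟨N ⊓ N', hP.hNinf N hN N' hN', ?_⟩
      rintro f (rfl | hf) hfN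
      · exact absurd hfN.2 haN'
      · exact hs f hf hfN.1

theorem Good.extend (h : Good D U V) (hL : LocNormal G) (hP : EPair D U V X NS) :
    Good D (U ⊔ (V ⊓ X)) (V ⊓ sInf NS) ∧
      (∀ v ∈ V ⊓ (U ⊔ (V ⊓ X)), v ≠ 1 → ∃ N : Subgroup G, N.Normal ∧ N.FiniteIndex ∧ U ≤ N ∧
        V ⊓ sInf NS ≤ N ∧ v ∉ N) ∧ (V ⊓ (U ⊔ (V ⊓ X)) : Subgroup G) = V ⊓ X := by
  have hUn := h.nU
  have hVn := h.nV
  have hXn := hP.hXn
  set E := sInf NS with hE
  have hEn : E.Normal := by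
    constructor
    intro n hn g
    rw [hE, Subgroup.mem_sInf] at hn ⊢
    intro N hN
    exact (hP.hN N hN).1.conj_mem n (hn N hN) g
  have hUE : U ≤ E := by
    rw [hE]
    exact le_sInf fun N hN => (hP.hN N hN).2.2
  have hEle : ∀ N ∈ NS, E ≤ N := fun N hN => sInf_le hN
  -- elements of X ∩ V ∩ E are trivial
  have triv : ∀ g, g ∈ X → g ∈ V → g ∈ E → g = 1 := by
    intro g hgX hgV hgE
    by_contra hne
    have hgU : g ∉ U := fun hgU => hne (h.inf g hgU hgV)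
    obtain ⟨N, hN, hgN⟩ := hP.hsep g hgX hgU
    exact hgN (hEle N hN hgE)
  have memU' : ∀ g, g ∈ U ⊔ (V ⊓ X) ↔ ∃ a ∈ U, ∃ b, b ∈ V ∧ b ∈ X ∧ g = a * b := by
    intro g
    rw [Subgroup.mem_sup_of_normal_left]
    constructor
    · rintro ⟨a, ha, b, hb, e⟩
      exact ⟨a, ha, b, hb.1, hb.2, e.symm⟩
    · rintro ⟨a, ha, b, hb1, hb2, e⟩
      exact ⟨a, ha, b, ⟨hb1, hb2⟩, e.symm⟩
  have commX : ∀ g, g ∈ X → ∀ c, c ∈ V → c ∈ E → g * c = c * g := by
    intro g hg c hcV hcE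
    rw [← commutatorElement_eq_one_iff_mul_comm]
    apply triv
    · have : ⁅g, c⁆ = g * (c * g⁻¹ * c⁻¹) := by simp [commutatorElement_def, mul_assoc]
      rw [this]
      exact X.mul_mem hg (hXn.conj_mem _ (X.inv_mem hg) c)
    · rw [commutatorElement_def]
      exact V.mul_mem (hVn.conj_mem _ hcV g) (V.inv_mem hcV)
    · rw [commutatorElement_def]
      exact E.mul_mem (hEn.conj_mem _ hcE g) (E.inv_mem hcE)
  -- main computation
  have main : ∀ g x : G, ∃ g0 : G, (∀ v ∈ V ⊓ E, g0 * v = v * g0) ∧ ⁅g0, x⁆ ∈ U ⊔ (V ⊓ X) ∧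
      ∃ c ∈ V ⊓ E, ⁅g, x⁆ = ⁅g0, x⁆ * c := by
    intro g x
    -- finite set of quotients of commutators
    have hfin : (Set.image2 (fun a b : G => a * b⁻¹) (Set.range fun g : G => ⁅g, x⁆)
        (Set.range fun g : G => ⁅g, x⁆)).Finite :=
      (commSet_finite hL x).image2 _ (commSet_finite hL x)
    obtain ⟨N0, hN0, hN0'⟩ := hP.exists_good_N hfin
    obtain ⟨g1, hg1, hn⟩ := hP.hXN N0 hN0 g
    have hN0n := (hP.hN N0 hN0).1
    have hd : ⁅g, x⁆ * ⁅g1, x⁆⁻¹ ∈ E := by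
      apply hN0' _ ⟨_, ⟨g, rfl⟩, _, ⟨g1, rfl⟩, rfl⟩
      have : ⁅g, x⁆ * ⁅g1, x⁆⁻¹ = g1 * ((g1⁻¹ * g) * (x * (g1⁻¹ * g)⁻¹ * x⁻¹)) * g1⁻¹ := by
        simp [commutatorElement_def, mul_assoc]
      change ⁅g, x⁆ * ⁅g1, x⁆⁻¹ ∈ N0
      rw [this]
      apply hN0n.conj_mem
      exact N0.mul_mem hn (hN0n.conj_mem _ (N0.inv_mem hn) x)
    set d := ⁅g, x⁆ * ⁅g1, x⁆⁻¹ with hdd
    have hdW : d ∈ commutator G := by
      refine (commutator G).mul_mem ?_ ((commutator G).inv_mem ?_)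
      · exact Subgroup.commutator_mem_commutator (Subgroup.mem_top _) (Subgroup.mem_top _)
      · exact Subgroup.commutator_mem_commutator (Subgroup.mem_top _) (Subgroup.mem_top _)
    obtain ⟨a', ha', c', hc', ed⟩ := h.sup d hdW
    have hc'E : c' ∈ E := by
      have : c' = a'⁻¹ * d := by rw [ed, inv_mul_cancel_left]
      rw [this]
      exact E.mul_mem (E.inv_mem (hUE ha')) hd
    obtain ⟨a1, ha1, b, hb, e1⟩ := h.sup ⁅g1, x⁆
      (Subgroup.commutator_mem_commutator (Subgroup.mem_top _) (Subgroup.mem_top _))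
    have hg1x : ⁅g1, x⁆ ∈ X := by
      have : ⁅g1, x⁆ = g1 * (x * g1⁻¹ * x⁻¹) := by simp [commutatorElement_def, mul_assoc]
      rw [this]
      exact X.mul_mem hg1 (hXn.conj_mem _ (X.inv_mem hg1) x)
    have hbX : b ∈ X := hP.hXV _ hg1x a1 ha1 b hb e1
    -- g-commutator
    have eg : ⁅g, x⁆ = (a' * a1) * (b * c') := by
      have : ⁅g, x⁆ = d * ⁅g1, x⁆ := by rw [hdd, inv_mul_cancel_right]
      rw [this, ed, e1]
      have k1 : c' * a1 = a1 * c' := (h.comm ha1 hc').symm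
      have k2 : c' * b = b * c' := (commX b hbX c' hc' hc'E).symm
      calc a' * c' * (a1 * b) = a' * (c' * a1) * b := by group
        _ = a' * (a1 * c') * b := by rw [k1]
        _ = a' * a1 * (c' * b) := by group
        _ = a' * a1 * (b * c') := by rw [k2]
    obtain ⟨g2, hg2c, hg2U, c2, hc2, eg2⟩ := h.g1 g x
    have k3 : ⁅g2, x⁆ = a' * a1 :=
      (h.unique hg2U hc2 (U.mul_mem ha' ha1) (V.mul_mem hb hc') (eg2 ▸ eg)).1
    obtain ⟨g3, hg3c, hg3U, c3, hc3, eg3⟩ := h.g1 g1 x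
    have k4 : ⁅g3, x⁆ = a1 := (h.unique hg3U hc3 ha1 hb (eg3 ▸ e1)).1
    refine ⟨g2 * g3⁻¹ * g1, ?_, ?_⟩
    · intro v hv
      have c1 : g1 * v = v * g1 := commX g1 hg1 v hv.1 hv.2
      have c2 : g2 * v = v * g2 := hg2c v hv.1
      have c3 : g3⁻¹ * v = v * g3⁻¹ := by
        have := hg3c v hv.1
        rw [inv_mul_eq_iff_eq_mul, ← mul_assoc, this, mul_inv_cancel_right]
      calc g2 * g3⁻¹ * g1 * v = g2 * g3⁻¹ * (g1 * v) := by group
        _ = g2 * (g3⁻¹ * v) * g1 := by rw [c1]; group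
        _ = (g2 * v) * g3⁻¹ * g1 := by rw [c3]; group
        _ = v * (g2 * g3⁻¹ * g1) := by rw [c2]; group
    · -- conjugation formulas
      have f1 : g1 * x * g1⁻¹ = a1 * b * x := by
        rw [← e1, commutatorElement_def]; group
      have f2 : g2 * x * g2⁻¹ = a' * a1 * x := by
        rw [← k3, commutatorElement_def]; group
      have f3 : g3 * x * g3⁻¹ = a1 * x := by
        rw [← k4, commutatorElement_def]; group
      have f4 : g3⁻¹ * (a1 * x) * g3 = x := by rw [← f3]; group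
      have f5 : g3⁻¹ * b = b * g3⁻¹ := by
        have := hg3c b hb
        rw [inv_mul_eq_iff_eq_mul, ← mul_assoc, this, mul_inv_cancel_right]
      have f6 : g2 * b = b * g2 := hg2c b hb
      have f7 : a1 * b = b * a1 := h.comm ha1 hb
      have f8 : (a' * a1) * b = b * (a' * a1) := h.comm (U.mul_mem ha' ha1) hb
      have e0 : ⁅g2 * g3⁻¹ * g1, x⁆ = (a' * a1) * b := by
        have s1 : (g2 * g3⁻¹ * g1) * x * (g2 * g3⁻¹ * g1)⁻¹ = b * (a' * a1) * x := by
          calc (g2 * g3⁻¹ * g1) * x * (g2 * g3⁻¹ * g1)⁻¹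
              = g2 * (g3⁻¹ * (g1 * x * g1⁻¹) * g3) * g2⁻¹ := by group
            _ = g2 * (g3⁻¹ * (b * a1 * x) * g3) * g2⁻¹ := by rw [f1, f7]
            _ = g2 * ((g3⁻¹ * b) * (a1 * x) * g3) * g2⁻¹ := by group
            _ = g2 * (b * (g3⁻¹ * (a1 * x) * g3)) * g2⁻¹ := by rw [f5]; group
            _ = (g2 * b) * x * g2⁻¹ := by rw [f4]; group
            _ = b * (g2 * x * g2⁻¹) := by rw [f6]; group
            _ = b * (a' * a1) * x := by rw [f2]; group
        rw [commutatorElement_def, s1, mul_inv_cancel_right, f8]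
      refine ⟨?_, c', ⟨hc', hc'E⟩, ?_⟩
      · rw [e0, memU']
        exact ⟨_, U.mul_mem ha' ha1, b, hb, hbX, rfl⟩
      · rw [e0, eg]; group
  have hVX : (V ⊓ (U ⊔ (V ⊓ X)) : Subgroup G) = V ⊓ X := by
    apply le_antisymm
    · rintro g ⟨hgV, hg⟩
      obtain ⟨a, ha, b, hb, hbX, e⟩ := (memU' g).mp hg
      have := h.unique U.one_mem hgV ha hb (by rw [one_mul, e])
      exact ⟨hgV, this.2 ▸ hbX⟩
    · rintro g ⟨hgV, hgX⟩
      exact ⟨hgV, (memU' g).mpr ⟨1, U.one_mem, g, hgV, hgX, (one_mul g).symm⟩⟩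
  refine ⟨?_, ?_, hVX⟩
  · refine ⟨inferInstance, inferInstance, ?_, ?_, ?_, ?_, main, ?_⟩
    · intro g hgU' hgV'
      have : g ∈ V ⊓ X := hVX ▸ ⟨hgV'.1, hgU'⟩
      exact triv g this.2 this.1 hgV'.2
    · intro w hw
      have hle : commutator G ≤ (U ⊔ (V ⊓ X)) ⊔ (V ⊓ E) := by
        rw [_root_.commutator_def, Subgroup.commutator_le]
        intro g _ x _
        obtain ⟨g0, -, hg0, c, hc, e⟩ := main g x
        rw [e]
        exact Subgroup.mul_mem _ (Subgroup.mem_sup_left hg0) (Subgroup.mem_sup_right hc)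
      have := hle hw
      rw [Subgroup.mem_sup_of_normal_left] at this
      obtain ⟨a, ha, b, hb, e⟩ := this
      exact ⟨a, ha, b, hb, e.symm⟩
    · exact sup_le h.leU (inf_le_left.trans h.leV)
    · exact inf_le_left.trans h.leV
    · intro n a' b' ha' hb' hab N hN
      obtain ⟨a, ha, b, hb, hbX, e⟩ := (memU' a').mp ha'
      have h1 : ∀ N ∈ D.NN n, b * b' ∈ N := by
        apply h.g2 n a (b * b') ha (V.mul_mem hb hb'.1)
        intro N hN
        have := hab N hN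
        rwa [e, mul_assoc] at this
      by_contra hb'N
      have hbN : b ∉ N := by
        intro hbN
        apply hb'N
        have := N.mul_mem (N.inv_mem hbN) (h1 N hN)
        rwa [inv_mul_cancel_left] at this
      obtain ⟨N', hN', hN'n, hbN'⟩ := hP.hsep2 b hbX hb n ⟨N, hN, hbN⟩
      apply hbN'
      have := N'.mul_mem (h1 N' hN'n) (N'.inv_mem (hEle N' hN' hb'.2))
      rwa [mul_inv_cancel_right] at this
  · intro v hv hv1
    have hv' : v ∈ V ⊓ X := hVX ▸ hv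
    have hvU : v ∉ U := fun hvU => hv1 (h.inf v hvU hv'.1)
    obtain ⟨N, hN, hvN⟩ := hP.hsep v hv'.2 hvU
    obtain ⟨h1, h2, h3⟩ := hP.hN N hN
    exact ⟨N, h1, h2, h3, inf_le_right.trans (hEle N hN), hvN⟩

end Pool.Agent.Helper33.LN
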