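import Pool.Agent.Helper33.LN.Basic

set_option autoImplicit false

namespace Pool.Agent.Helper33.LN

open Subgroup
open scoped commutatorElement IsMulCommutative

universe u v

/-- compatible decompositions of the commutator subgroup -/
structure Good {G : Type u} [Group G] {I : Type v} (D : CycData G I) (U V : Subgroup G) :
    Prop where
  nU : U.Normal
  nV : V.Normal
  inf : ∀ g, g ∈ U → g ∈ V → g = 1
  sup : ∀ w ∈ commutator G, ∃ a ∈ U, ∃ b ∈ V, w = a * b
  leU : U ≤ commutator G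
  leV : V ≤ commutator G
  g1 : ∀ g x : G, ∃ g0 : G, (∀ v ∈ V, g0 * v = v * g0) ∧ ⁅g0, x⁆ ∈ U ∧
    ∃ c ∈ V, ⁅g, x⁆ = ⁅g0, x⁆ * c
  g2 : ∀ (n : ℕ) (a b : G), a ∈ U → b ∈ V → (∀ N ∈ D.NN n, a * b ∈ N) → ∀ N ∈ D.NN n, b ∈ N

section abelian

/-- in an abelian group with `a ^ k ∈ S` for all `a`, elements outside `S` can be separated from
`S` by a subgroup of finite index -/
theorem exists_finiteIndex_of_pow {A : Type u} [CommGroup A] (S : Subgroup A) (k : ℕ)
    (hk : 0 < k) (hS : ∀ a : A, a ^ k ∈ S) (v : A) (hv : v ∉ S) :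
    ∃ K : Subgroup A, K.FiniteIndex ∧ S ≤ K ∧ v ∉ K := by
  have hne : (Additive.ofMul (v : A ⧸ S)) ≠ 0 := by
    intro h
    apply hv
    rw [← QuotientGroup.eq_one_iff]
    exact h
  obtain ⟨c, hc⟩ := CharacterModule.exists_character_apply_ne_zero_of_ne_zero hne
  -- `c` as an additive hom
  let f : Additive (A ⧸ S) →+ AddCircle (1 : ℚ) := c
  have hf : f (Additive.ofMul (v : A ⧸ S)) ≠ 0 := hc
  let g : A →* Multiplicative (AddCircle (1 : ℚ)) :=
    MonoidHom.mk' (fun a => Multiplicative.ofAdd (f (Additive.ofMul (a : A ⧸ S)))) (by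
      intro a b
      rw [QuotientGroup.mk_mul, ofMul_mul, map_add, ofAdd_add])
  have hg : ∀ a, g a = Multiplicative.ofAdd (f (Additive.ofMul (a : A ⧸ S))) := fun a => rfl
  refine ⟨g.ker, ⟨?_⟩, ?_, ?_⟩
  · rw [index_ker]
    have hfin : (g.range : Set (Multiplicative (AddCircle (1 : ℚ)))).Finite := by
      have h1 := AddCircle.finite_torsion (1 : ℚ) hk
      have h2 := h1.image (Multiplicative.ofAdd)
      refine h2.subset ?_
      rintro _ ⟨a, rfl⟩
      refine ⟨f (Additive.ofMul (a : A ⧸ S)), ?_, (hg a).symm⟩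
      have h3 : k • (Additive.ofMul (a : A ⧸ S)) = 0 := by
        rw [← ofMul_pow, ← QuotientGroup.mk_pow, (QuotientGroup.eq_one_iff _).mpr (hS a)]
        rfl
      change k • f (Additive.ofMul (a : A ⧸ S)) = 0
      rw [← map_nsmul, h3, map_zero]
    have : Finite g.range := hfin.to_subtype
    exact Nat.card_pos.ne'
  · intro s hs
    rw [MonoidHom.mem_ker, hg, (QuotientGroup.eq_one_iff _).mpr hs]
    simp
  · rw [MonoidHom.mem_ker, hg]
    intro h
    apply hf
    exact Multiplicative.ofAdd.injective h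

end abelian

section lemma1

variable {G : Type u} [Group G] {I : Type v} {D : CycData G I} {U V : Subgroup G}

theorem Good.comm (h : Good D U V) {a b : G} (ha : a ∈ U) (hb : b ∈ V) : a * b = b * a := by
  have h1 : ⁅a, b⁆ ∈ U := by
    have : ⁅a, b⁆ = a * (b * a⁻¹ * b⁻¹) := by simp [commutatorElement_def, mul_assoc]
    rw [this]
    exact U.mul_mem ha (h.nU.conj_mem _ (U.inv_mem ha) b)
  have h2 : ⁅a, b⁆ ∈ V := by
    rw [commutatorElement_def]
    exact V.mul_mem (h.nV.conj_mem _ hb a) (V.inv_mem hb)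
  exact commutatorElement_eq_one_iff_mul_comm.mp (h.inf _ h1 h2)

theorem Good.unique (h : Good D U V) {a b a' b' : G} (ha : a ∈ U) (hb : b ∈ V) (ha' : a' ∈ U)
    (hb' : b' ∈ V) (e : a * b = a' * b') : a = a' ∧ b = b' := by
  have e1 : a'⁻¹ * a = b' * b⁻¹ := by
    rw [eq_mul_inv_iff_mul_eq, mul_assoc, e, inv_mul_cancel_left]
  have e2 : a'⁻¹ * a = 1 := h.inf _ (U.mul_mem (U.inv_mem ha') ha)
    (e1 ▸ V.mul_mem hb' (V.inv_mem hb))
  have e3 : a = a' := (inv_mul_eq_one.mp e2).symm
  refine ⟨e3, ?_⟩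
  rw [e3] at e
  exact mul_left_cancel e

theorem Good.comm_mem (h : Good D U V) {N : Subgroup G} (hN : N.Normal) {x : G} (hx : x ∈ N)
    (g : G) : ∃ a ∈ U, ∃ b ∈ V, a ∈ N ∧ b ∈ N ∧ ⁅g, x⁆ = a * b := by
  obtain ⟨g0, -, h1, c, hc, e⟩ := h.g1 g x
  have hc1 : ∀ y : G, ⁅y, x⁆ ∈ N := fun y => by
    rw [commutatorElement_def]
    exact N.mul_mem (hN.conj_mem _ hx y) (N.inv_mem hx)
  refine ⟨_, h1, c, hc, hc1 g0, ?_, e⟩
  have : c = ⁅g0, x⁆⁻¹ * ⁅g, x⁆ := by rw [e, inv_mul_cancel_left]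
  rw [this]
  exact N.mul_mem (N.inv_mem (hc1 g0)) (hc1 g)

/-- separation relative to the first factor -/
theorem Good.lemma1 (h : Good D U V) (n : ℕ) {v : G} (hv : v ∈ V) {N : Subgroup G}
    (hN : N ∈ D.NN n) (hvN : v ∉ N) : ∃ N' ∈ D.NN n, U ≤ N' ∧ v ∉ N' := by
  obtain ⟨hNn, hNf, hNz⟩ := hN
  have hU := h.nU
  have hV := h.nV
  set R : Subgroup G := U ⊔ (N ⊓ V) with hR
  have hRn : R.Normal := inferInstance
  have hUR : U ≤ R := le_sup_left
  have hNVR : N ⊓ V ≤ R := le_sup_right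
  have hRc : R ≤ commutator G := sup_le h.leU (inf_le_right.trans h.leV)
  have hvR : v ∉ R := by
    intro hmem
    rw [hR, Subgroup.mem_sup_of_normal_left] at hmem
    obtain ⟨a, ha, b, hb, e⟩ := hmem
    have := h.unique ha hb.2 U.one_mem hv (by rw [e, one_mul])
    exact hvN (this.2 ▸ hb.1)
  -- the `z i` in `R`
  have hz : ∀ k : ℕ, N ∈ D.NN k → ∀ i, ¬ D.q i ∣ k → D.x i ^ D.q i ∈ R := by
    intro k hk i hi
    obtain ⟨a, ha, b, hb, e⟩ := h.sup _ (D.z_mem i)
    have h1 : ∀ N' ∈ D.NN k, a * b ∈ N' := by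
      intro N' hN'
      rw [← e]
      exact hN'.2.2 i hi
    have h2 := h.g2 k a b ha hb h1 N hk
    rw [e]
    exact R.mul_mem (hUR ha) (hNVR ⟨h2, hb⟩)
  have hz1 := hz n ⟨hNn, hNf, hNz⟩
  have hz2 := hz N.index (D.mem_NN_index hNn hNf)
  -- quotient
  let L := G ⧸ R
  let mk : G →* L := QuotientGroup.mk' R
  have hmks : Function.Surjective mk := QuotientGroup.mk'_surjective R
  have hmk1 : ∀ g, mk g = 1 ↔ g ∈ R := fun g => QuotientGroup.eq_one_iff g
  have hcen : N ≤ (center L).comap mk := by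
    intro x hx
    rw [Subgroup.mem_comap, Subgroup.mem_center_iff]
    intro y
    obtain ⟨g, rfl⟩ := hmks y
    obtain ⟨a, ha, b, hb, haN, hbN, e⟩ := h.comm_mem hNn hx g
    have : ⁅mk g, mk x⁆ = 1 := by
      rw [← map_commutatorElement, hmk1, e]
      exact R.mul_mem (hUR ha) (hNVR ⟨hbN, hb⟩)
    exact commutatorElement_eq_one_iff_mul_comm.mp this
  have hcf : ((center L).comap mk).FiniteIndex := finiteIndex_of_le hcen
  have hcf' : (center L).FiniteIndex :=
    ⟨by rw [← index_comap_of_surjective _ hmks]; exact hcf.index_ne_zero⟩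
  set l := (center L).index with hl
  have hlpos : 0 < l := Nat.pos_of_ne_zero hcf'.index_ne_zero
  set m := N.index with hm
  have hmpos : 0 < m := Nat.pos_of_ne_zero hNf.index_ne_zero
  have hfinish : ∀ K : Subgroup L, K.Normal → K.FiniteIndex → mk v ∉ K →
      ∃ N' ∈ D.NN n, U ≤ N' ∧ v ∉ N' := by
    intro K hK hKf hvK
    refine ⟨K.comap mk, ⟨inferInstance, comap_finiteIndex mk K hKf, ?_⟩, ?_, ?_⟩
    · intro i hi
      rw [Subgroup.mem_comap, (hmk1 _).mpr (hz1 i hi)]
      exact K.one_mem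
    · intro a ha
      rw [Subgroup.mem_comap, (hmk1 _).mpr (hUR ha)]
      exact K.one_mem
    · exact hvK
  by_cases hvc : mk v ∈ center L
  swap
  · exact hfinish (center L) inferInstance hcf' hvc
  -- the power map into the center
  let τ : G →* center L := ((powMonoidHom m).comp (MonoidHom.transferCenterPow L)).comp mk
  have hτ : ∀ g, ((τ g : center L) : L) = mk g ^ (l * m) := by
    intro g
    change ((((MonoidHom.transferCenterPow L) (mk g)) ^ m : center L) : L) = _
    rw [Subgroup.coe_pow, MonoidHom.transferCenterPow_apply, pow_mul]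
  have hτx : ∀ i, ∀ c : ℕ, D.q i ∣ l * m * c → τ (D.x i) ^ c = 1 := by
    intro i c hc
    apply Subtype.ext
    rw [Subgroup.coe_pow, hτ, ← pow_mul, Subgroup.coe_one]
    by_cases hi : D.q i ∣ m
    · obtain ⟨d, hd⟩ := hi
      have h1 : D.x i ^ m ∈ commutator G := by
        rw [hd, pow_mul]
        exact (commutator G).pow_mem (D.z_mem i) d
      have h2 : ((MonoidHom.transferCenterPow L).comp mk) (D.x i ^ m) = 1 :=
        CycData.comm_le_ker ((MonoidHom.transferCenterPow L).comp mk) h1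
      have h3 : mk (D.x i) ^ (m * l) = 1 := by
        have h4 : ((MonoidHom.transferCenterPow L (mk (D.x i ^ m)) : center L) : L) = 1 :=
          congrArg (fun z : center L => (z : L)) h2
        rw [MonoidHom.transferCenterPow_apply, map_pow] at h4
        rw [pow_mul]
        exact h4
      rw [mul_comm l m, pow_mul, h3, one_pow]
    · obtain ⟨d, hd⟩ := hc
      rw [hd, pow_mul, ← map_pow, (hmk1 _).mpr (hz2 i hi), one_pow]
  have hτc : ∀ g, τ g ≠ 1 → mk g ^ (l * m) ∉ (commutator G).map mk := by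
    intro g hg hmem
    apply hg
    obtain ⟨w, hw, e⟩ := Subgroup.mem_map.mp hmem
    have h1 : g ^ (l * m) ∈ commutator G := by
      have h2 : mk (w⁻¹ * g ^ (l * m)) = 1 := by
        rw [map_mul, map_inv, map_pow, e, inv_mul_cancel]
      have h3 := hRc ((hmk1 _).mp h2)
      have h4 := (commutator G).mul_mem hw h3
      rwa [mul_inv_cancel_left] at h4
    rw [D.hom_eq τ g]
    apply Finset.prod_eq_one
    intro i _
    apply hτx
    have h2 : D.φ i (g ^ (l * m)) = 1 := CycData.comm_le_ker (D.φ i) h1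
    rw [map_pow] at h2
    have h3 : (l * m) • (Multiplicative.toAdd (D.φ i g)) = 0 := by
      have := congrArg Multiplicative.toAdd h2
      simpa using this
    have hne : NeZero (D.q i) := ⟨D.hq i⟩
    have h4 : ((l * m * (Multiplicative.toAdd (D.φ i g)).val : ℕ) : ZMod (D.q i)) = 0 := by
      push_cast
      rw [ZMod.natCast_zmod_val]
      rw [nsmul_eq_mul] at h3
      push_cast at h3
      exact h3
    exact (ZMod.natCast_eq_zero_iff _ _).mp h4
  -- the class of v is not in the range of τ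
  have hvS : (⟨mk v, hvc⟩ : center L) ∉ τ.range := by
    rintro ⟨g, hg⟩
    have h1 : mk v = mk g ^ (l * m) := by
      rw [← hτ, hg]
    have h2 : τ g ≠ 1 := by
      rw [hg]
      intro h3
      have h4 : mk v = 1 := congrArg (fun z : center L => (z : L)) h3
      exact hvR ((hmk1 v).mp h4)
    apply hτc g h2
    rw [← h1]
    exact Subgroup.mem_map_of_mem mk (h.leV hv)
  obtain ⟨K, hKf, hSK, hvK⟩ := exists_finiteIndex_of_pow τ.range (l * m)
    (Nat.mul_pos hlpos hmpos) (by
      rintro ⟨a, ha⟩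
      obtain ⟨g, rfl⟩ := hmks a
      refine ⟨g, ?_⟩
      apply Subtype.ext
      rw [hτ, Subgroup.coe_pow]) ⟨mk v, hvc⟩ hvS
  refine hfinish (K.map (center L).subtype) ?_ ?_ ?_
  · constructor
    rintro _ ⟨a, ha, rfl⟩ g
    have : g * (center L).subtype a * g⁻¹ = (center L).subtype a := by
      have := (Subgroup.mem_center_iff.mp a.2) g
      change g * (a : L) * g⁻¹ = (a : L)
      rw [this, mul_inv_cancel_right]
    rw [this]
    exact Subgroup.mem_map_of_mem _ ha
  · constructor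
    rw [index_map_subtype]
    exact Nat.mul_ne_zero hKf.index_ne_zero hcf'.index_ne_zero
  · rintro ⟨a, ha, e⟩
    apply hvK
    have : a = ⟨mk v, hvc⟩ := Subtype.ext e
    rw [← this]
    exact ha

end lemma1

end Pool.Agent.Helper33.LN
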