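import Pool.Agent.Helper33.LN.Extend
import Pool.Agent.Helper33.LN.CountableCase

set_option autoImplicit false

namespace Pool.Agent.Helper33.LN

open Subgroup
open scoped commutatorElement IsMulCommutative

universe u v

variable {G : Type u} [Group G] {I : Type v} {D : CycData G I} {U V X : Subgroup G}
  {NS : Set (Subgroup G)}

/-- data on a quotient by a normal subgroup of the commutator subgroup -/
def CycData.quot (D : CycData G I) (Q : Subgroup G) [Q.Normal] (hQ : Q ≤ commutator G) :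
    CycData (G ⧸ Q) I where
  x := fun i => (D.x i : G ⧸ Q)
  q := D.q
  φ := fun i => QuotientGroup.lift Q (D.φ i) (hQ.trans (CycData.comm_le_ker (D.φ i)))
  hq := D.hq
  hp := by
    intro i
    obtain ⟨p, a, n, h1, h2, h3⟩ := D.hp i
    refine ⟨p, a, n, h1, ?_, h3⟩
    rw [← QuotientGroup.mk_pow, h2, QuotientGroup.mk_one]
  hφx := fun i => by
    rw [QuotientGroup.lift_mk]
    exact D.hφx i
  hφxj := fun i j hij => by
    rw [QuotientGroup.lift_mk]
    exact D.hφxj i j hij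
  hfin := by
    intro g
    obtain ⟨g, rfl⟩ := QuotientGroup.mk_surjective g
    simp only [QuotientGroup.lift_mk]
    exact D.hfin g
  hker := by
    intro g hg
    obtain ⟨g, rfl⟩ := QuotientGroup.mk_surjective g
    simp only [QuotientGroup.lift_mk] at hg
    have h1 := D.hker g hg
    have h2 : (commutator G).map (QuotientGroup.mk' Q) ≤ commutator (G ⧸ Q) := by
      rw [_root_.commutator_def, _root_.commutator_def, Subgroup.map_commutator]
      exact Subgroup.commutator_mono le_top le_top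
    exact h2 ⟨g, h1, rfl⟩

theorem Good.lemma3 (h : Good D U V) (hL : LocNormal G) (hP : EPair D U V X NS) :
    ∃ FF : Set (Subgroup G),
      (∀ N ∈ FF, N.Normal ∧ N.FiniteIndex ∧ U ⊔ (V ⊓ sInf NS) ≤ N) ∧
      (∀ g, {N | N ∈ FF ∧ g ∉ N}.Finite) ∧
      (∀ b ∈ V ⊓ X, b ≠ 1 → ∃ N ∈ FF, b ∉ N) ∧
      (∀ i, D.x i ^ D.q i ∈ U ⊔ (V ⊓ sInf NS) → (∀ g : G, ⁅g, D.x i⁆ ∈ U ⊔ (V ⊓ sInf NS)) →
        ∀ N ∈ FF, D.x i ∈ N) := by
  obtain ⟨hG', hsep, hVX⟩ := h.extend hL hP
  have hUn := h.nU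
  have hVn := h.nV
  have hV'n := hG'.nV
  set Q := U ⊔ (V ⊓ sInf NS) with hQ
  have hQn : Q.Normal := inferInstance
  have hQc : Q ≤ commutator G := sup_le h.leU (inf_le_left.trans h.leV)
  -- decomposition modulo Q
  have hdec : ∀ w ∈ commutator G, ∃ c ∈ Q, ∃ b ∈ V ⊓ X, w = c * b := by
    intro w hw
    obtain ⟨a, ha, v', hv', e⟩ := hG'.sup w hw
    rw [Subgroup.mem_sup_of_normal_left] at ha
    obtain ⟨a, ha, b, hb, rfl⟩ := ha
    have hcomm : b * v' = v' * b := by
      apply hG'.comm _ hv'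
      exact Subgroup.mem_sup_right hb
    refine ⟨a * v', Q.mul_mem (Subgroup.mem_sup_left ha) (Subgroup.mem_sup_right hv'), b, hb, ?_⟩
    rw [e, mul_assoc, hcomm, mul_assoc]
  have hsep' : ∀ b ∈ V ⊓ X, b ≠ 1 → ∃ N : Subgroup G, N.Normal ∧ N.FiniteIndex ∧ Q ≤ N ∧
      b ∉ N := by
    intro b hb hb1
    obtain ⟨N, h1, h2, h3, h4, h5⟩ := hsep b (by rw [hVX]; exact hb) hb1
    exact ⟨N, h1, h2, sup_le h3 h4, h5⟩
  have hVXQ : ∀ b ∈ V ⊓ X, b ∈ Q → b = 1 := by
    intro b hb hbQ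
    by_contra hb1
    obtain ⟨N, h1, h2, h3, h4⟩ := hsep' b hb hb1
    exact h4 (h3 hbQ)
  have hmks := QuotientGroup.mk'_surjective Q
  have hLK : LocNormal (G ⧸ Q) := hL.of_surjective (QuotientGroup.mk' Q) hmks
  have hRK : ResFin (G ⧸ Q) := by
    intro g hg
    obtain ⟨g, rfl⟩ := QuotientGroup.mk_surjective g
    have hgQ : g ∉ Q := fun hgQ => hg ((QuotientGroup.eq_one_iff g).mpr hgQ)
    have key : ∀ N : Subgroup G, N.Normal → N.FiniteIndex → Q ≤ N → g ∉ N →
        ∃ N' : Subgroup (G ⧸ Q), N'.Normal ∧ N'.FiniteIndex ∧ (g : G ⧸ Q) ∉ N' := by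
      intro N h1 h2 h3 h4
      refine ⟨N.map (QuotientGroup.mk' Q), h1.map _ hmks, ⟨?_⟩, ?_⟩
      · intro h0
        have := index_map_dvd (H := N) hmks
        rw [h0] at this
        exact h2.index_ne_zero (Nat.eq_zero_of_zero_dvd this)
      · rintro ⟨n, hn, e⟩
        apply h4
        have : n⁻¹ * g ∈ Q := QuotientGroup.eq.mp e
        have := N.mul_mem hn (h3 this)
        rwa [mul_inv_cancel_left] at this
    by_cases hgc : g ∈ commutator G
    · obtain ⟨c, hc, b, hb, e⟩ := hdec g hgc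
      have hb1 : b ≠ 1 := by
        rintro rfl
        rw [mul_one] at e
        exact hgQ (e ▸ hc)
      obtain ⟨N, h1, h2, h3, h4⟩ := hsep' b hb hb1
      apply key N h1 h2 h3
      intro hgN
      apply h4
      have : b = c⁻¹ * g := by rw [e, inv_mul_cancel_left]
      rw [this]
      exact N.mul_mem (N.inv_mem (h3 hc)) hgN
    · have : ∃ i, D.φ i g ≠ 1 := by
        by_contra hcon
        push Not at hcon
        exact hgc (D.hker g hcon)
      obtain ⟨i, hi⟩ := this
      have hne : NeZero (D.q i) := ⟨D.hq i⟩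
      have hf : Finite (Multiplicative (ZMod (D.q i))) := inferInstanceAs (Finite (ZMod (D.q i)))
      exact key (D.φ i).ker inferInstance (ker_finiteIndex _)
        (hQc.trans (CycData.comm_le_ker (D.φ i))) hi
  have hcc : (commutator (G ⧸ Q) : Set (G ⧸ Q)).Countable := by
    have h1 : commutator (G ⧸ Q) ≤ (commutator G).map (QuotientGroup.mk' Q) := by
      rw [_root_.commutator_def, _root_.commutator_def, Subgroup.map_commutator]
      apply Subgroup.commutator_mono
      · intro g _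
        obtain ⟨g, rfl⟩ := hmks g
        exact ⟨g, Subgroup.mem_top _, rfl⟩
      · intro g _
        obtain ⟨g, rfl⟩ := hmks g
        exact ⟨g, Subgroup.mem_top _, rfl⟩
    have h2 : ((V ⊓ X : Subgroup G) : Set G).Countable := hP.hXc.mono (fun g hg => hg.2)
    refine (h2.image (QuotientGroup.mk' Q)).mono ?_
    intro w hw
    obtain ⟨w, hw', rfl⟩ := h1 hw
    obtain ⟨c, hc, b, hb, rfl⟩ := hdec w hw'
    refine ⟨b, hb, ?_⟩
    rw [map_mul]
    have : (QuotientGroup.mk' Q) c = 1 := (QuotientGroup.eq_one_iff c).mpr hc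
    rw [this, one_mul]
  obtain ⟨FF, hF1, hF2, hF3, hF4⟩ := (D.quot Q hQc).countable_case hLK hRK hcc
  refine ⟨(Subgroup.comap (QuotientGroup.mk' Q)) '' FF, ?_, ?_, ?_, ?_⟩
  · rintro _ ⟨N, hN, rfl⟩
    have hNn := (hF1 N hN).1
    refine ⟨inferInstance, comap_finiteIndex _ _ (hF1 N hN).2, ?_⟩
    intro c hc
    rw [Subgroup.mem_comap]
    have : (QuotientGroup.mk' Q) c = 1 := (QuotientGroup.eq_one_iff c).mpr hc
    rw [this]
    exact N.one_mem
  · intro g
    refine ((hF2 (QuotientGroup.mk' Q g)).image (Subgroup.comap (QuotientGroup.mk' Q))).subset ?_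
    rintro _ ⟨⟨N, hN, rfl⟩, hg⟩
    exact ⟨N, ⟨hN, hg⟩, rfl⟩
  · intro b hb hb1
    have h1 : QuotientGroup.mk' Q b ∈ commutator (G ⧸ Q) := by
      have h2 : (commutator G).map (QuotientGroup.mk' Q) ≤ commutator (G ⧸ Q) := by
        rw [_root_.commutator_def, _root_.commutator_def, Subgroup.map_commutator]
        exact Subgroup.commutator_mono le_top le_top
      exact h2 ⟨b, h.leV hb.1, rfl⟩
    have h2 : QuotientGroup.mk' Q b ≠ 1 := fun h3 =>
      hb1 (hVXQ b hb ((QuotientGroup.eq_one_iff b).mp h3))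
    obtain ⟨N, hN, hbN⟩ := hF3 _ h1 h2
    exact ⟨_, ⟨N, hN, rfl⟩, hbN⟩
  · rintro i hz hc _ ⟨N, hN, rfl⟩
    rw [Subgroup.mem_comap]
    refine hF4 i ?_ ?_ N hN
    · change ((D.x i : G ⧸ Q)) ^ D.q i = 1
      rw [← QuotientGroup.mk_pow]
      exact (QuotientGroup.eq_one_iff _).mpr hz
    · rw [Subgroup.mem_center_iff]
      intro g
      obtain ⟨g, rfl⟩ := hmks g
      have : ⁅QuotientGroup.mk' Q g, QuotientGroup.mk' Q (D.x i)⁆ = 1 := by
        rw [← map_commutatorElement]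
        exact (QuotientGroup.eq_one_iff _).mpr (hc g)
      exact commutatorElement_eq_one_iff_mul_comm.mp this

/-- partial solutions for Zorn's lemma -/
structure Tri (D : CycData G I) where
  U : Subgroup G
  V : Subgroup G
  FF : Set (Subgroup G)
  good : Good D U V
  fam1 : ∀ N ∈ FF, N.Normal ∧ N.FiniteIndex ∧ V ≤ N
  fam2 : ∀ g, {N | N ∈ FF ∧ g ∉ N}.Finite
  fam3 : ∀ a ∈ U, a ≠ 1 → ∃ N ∈ FF, a ∉ N

/-- the order on partial solutions -/
def Tri.le {D : CycData G I} (s t : Tri D) : Prop :=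
  s.U ≤ t.U ∧ t.V ≤ s.V ∧ s.FF ⊆ t.FF ∧ ∀ N ∈ t.FF, N ∉ s.FF →
    s.U ≤ N ∧ ∀ i, D.x i ^ D.q i ∈ s.U ⊔ t.V → (∀ g : G, ⁅g, D.x i⁆ ∈ s.U ⊔ t.V) → D.x i ∈ N

theorem Tri.le_refl {D : CycData G I} (s : Tri D) : s.le s :=
  ⟨_root_.le_refl _, _root_.le_refl _, fun _ h => h, fun _ h h' => absurd h h'⟩

theorem Tri.le_trans {D : CycData G I} {s t w : Tri D} (h1 : s.le t) (h2 : t.le w) :
    s.le w := by
  obtain ⟨a1, a2, a3, a4⟩ := h1
  obtain ⟨b1, b2, b3, b4⟩ := h2
  refine ⟨a1.trans b1, b2.trans a2, a3.trans b3, ?_⟩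
  intro N hN hNs
  by_cases hNt : N ∈ t.FF
  · obtain ⟨c1, c2⟩ := a4 N hNt hNs
    refine ⟨c1, fun i hz hc => c2 i ?_ fun g => ?_⟩
    · exact sup_le_sup_left b2 _ hz
    · exact sup_le_sup_left b2 _ (hc g)
  · obtain ⟨c1, c2⟩ := b4 N hN hNt
    refine ⟨a1.trans c1, fun i hz hc => c2 i ?_ fun g => ?_⟩
    · exact sup_le_sup_right a1 _ hz
    · exact sup_le_sup_right a1 _ (hc g)

/-- the trivial partial solution -/
def Tri.triv (D : CycData G I) : Tri D where
  U := ⊥
  V := commutator G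
  FF := ∅
  good :=
    { nU := inferInstance
      nV := inferInstance
      inf := fun g hg _ => Subgroup.mem_bot.mp hg
      sup := fun w hw => ⟨1, Subgroup.one_mem _, w, hw, (one_mul w).symm⟩
      leU := bot_le
      leV := _root_.le_refl _
      g1 := fun g x => ⟨1, fun v _ => by rw [one_mul, mul_one], by
        rw [commutatorElement_one_left]; exact Subgroup.one_mem _, ⁅g, x⁆,
        Subgroup.commutator_mem_commutator (Subgroup.mem_top _) (Subgroup.mem_top _), by
        rw [commutatorElement_one_left, one_mul]⟩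
      g2 := fun n a b ha hb h N hN => by
        have h1 := h N hN
        rw [Subgroup.mem_bot.mp ha, one_mul] at h1
        exact h1 }
  fam1 := fun N hN => absurd hN (Set.notMem_empty _)
  fam2 := fun g => by
    refine Set.finite_empty.subset ?_
    rintro N ⟨hN, _⟩
    exact hN
  fam3 := fun a ha h1 => absurd (Subgroup.mem_bot.mp ha) h1

theorem chain_ub_finite {D : CycData G I} {c : Set (Tri D)} (hc : IsChain Tri.le c)
    (hne : c.Nonempty) {F : Set (Tri D)} (hF : F.Finite) (hFc : F ⊆ c) :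
    ∃ t ∈ c, ∀ s ∈ F, s.le t := by
  induction F, hF using Set.Finite.induction_on with
  | empty =>
    obtain ⟨t, ht⟩ := hne
    exact ⟨t, ht, by simp⟩
  | @insert a s _ _ ih =>
    obtain ⟨t, ht, h1⟩ := ih ((Set.subset_insert _ _).trans hFc)
    have ha : a ∈ c := hFc (Set.mem_insert _ _)
    have htot : a.le t ∨ t.le a := by
      by_cases hat : a = t
      · exact Or.inl (hat ▸ a.le_refl)
      · exact hc ha ht hat
    rcases htot with h | h
    · refine ⟨t, ht, ?_⟩
      rintro b (rfl | hb)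
      · exact h
      · exact h1 b hb
    · refine ⟨a, ha, ?_⟩
      rintro b (rfl | hb)
      · exact b.le_refl
      · exact Tri.le_trans (h1 b hb) h

theorem Tri.chain_bound {D : CycData G I} (hL : LocNormal G) {c : Set (Tri D)}
    (hc : IsChain Tri.le c) (hne : c.Nonempty) : ∃ m : Tri D, ∀ t ∈ c, t.le m := by
  classical
  have hne' : Nonempty c := hne.to_subtype
  have htot : ∀ s ∈ c, ∀ t ∈ c, s.le t ∨ t.le s := by
    intro s hs t ht
    by_cases hst : s = t
    · exact Or.inl (hst ▸ s.le_refl)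
    · exact hc hs ht hst
  set U : Subgroup G := ⨆ t : c, t.1.U with hU
  set V : Subgroup G := ⨅ t : c, t.1.V with hV
  set FF : Set (Subgroup G) := ⋃ t : c, t.1.FF with hFF
  have hdir : Directed (· ≤ ·) (fun t : c => t.1.U) := by
    rintro ⟨s, hs⟩ ⟨t, ht⟩
    rcases htot s hs t ht with h | h
    · exact ⟨⟨t, ht⟩, h.1, _root_.le_refl _⟩
    · exact ⟨⟨s, hs⟩, _root_.le_refl _, h.1⟩
  have memU : ∀ g, g ∈ U ↔ ∃ t ∈ c, g ∈ t.U := by
    intro g
    rw [hU, Subgroup.mem_iSup_of_directed hdir]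
    constructor
    · rintro ⟨⟨t, ht⟩, h⟩
      exact ⟨t, ht, h⟩
    · rintro ⟨t, ht, h⟩
      exact ⟨⟨t, ht⟩, h⟩
  have memV : ∀ g, g ∈ V ↔ ∀ t ∈ c, g ∈ t.V := by
    intro g
    rw [hV, Subgroup.mem_iInf]
    exact ⟨fun h t ht => h ⟨t, ht⟩, fun h t => h t.1 t.2⟩
  have memFF : ∀ N, N ∈ FF ↔ ∃ t ∈ c, N ∈ t.FF := by
    intro N
    rw [hFF, Set.mem_iUnion]
    exact ⟨fun ⟨t, ht⟩ => ⟨t.1, t.2, ht⟩, fun ⟨t, ht, h⟩ => ⟨⟨t, ht⟩, h⟩⟩
  have leU : ∀ t ∈ c, t.U ≤ U := fun t ht g hg => (memU g).mpr ⟨t, ht, hg⟩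
  have leV : ∀ t ∈ c, V ≤ t.V := fun t ht g hg => (memV g).mp hg t ht
  -- late members
  have late : ∀ t ∈ c, ∀ N ∈ FF, N ∉ t.FF → ∃ s ∈ c, t.le s ∧ N ∈ s.FF := by
    intro t ht N hN hNt
    obtain ⟨s, hs, hNs⟩ := (memFF N).mp hN
    rcases htot t ht s hs with h | h
    · exact ⟨s, hs, h, hNs⟩
    · exact absurd (h.2.2.1 hNs) hNt
  have hcm : ∀ g x : G, ⁅g, x⁆ ∈ commutator G := fun g x =>
    Subgroup.commutator_mem_commutator (Subgroup.mem_top _) (Subgroup.mem_top _)
  have hg1 : ∀ g x : G, ∃ g0 : G, (∀ v ∈ V, g0 * v = v * g0) ∧ ⁅g0, x⁆ ∈ U ∧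
      ∃ c ∈ V, ⁅g, x⁆ = ⁅g0, x⁆ * c := by
    intro g x
    have hch : ∀ t : Tri D, ∃ g0 : G, (∀ v ∈ t.V, g0 * v = v * g0) ∧ ⁅g0, x⁆ ∈ t.U ∧
      ∃ c ∈ t.V, ⁅g, x⁆ = ⁅g0, x⁆ * c := fun t => t.good.g1 g x
    choose gt h1 h2 h3 using hch
    have hv : ∃ v : G, ∀ t ∈ c, ∃ s ∈ c, t.le s ∧ ⁅gt s, x⁆ = v := by
      by_contra hcon
      push Not at hcon
      choose T hT1 hT2 using hcon
      have hfin : (T '' (Set.range fun g : G => ⁅g, x⁆)).Finite := (commSet_finite hL x).image T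
      obtain ⟨t, ht, h4⟩ := chain_ub_finite hc hne hfin (by
        rintro _ ⟨v, _, rfl⟩
        exact hT1 v)
      exact hT2 _ t ht (h4 _ ⟨⁅gt t, x⁆, ⟨gt t, rfl⟩, rfl⟩) rfl
    obtain ⟨v, hv⟩ := hv
    obtain ⟨t0, ht0⟩ := hne
    obtain ⟨s, hs, -, hsv⟩ := hv t0 ht0
    refine ⟨gt s, fun w hw => h1 s w (leV s hs hw), leU s hs (h2 s), v⁻¹ * ⁅g, x⁆, ?_, ?_⟩
    · rw [memV]
      intro t ht
      obtain ⟨s', hs', hts', hv'⟩ := hv t ht
      obtain ⟨c', hc', e⟩ := h3 s'
      have : v⁻¹ * ⁅g, x⁆ = c' := by rw [e, hv', inv_mul_cancel_left]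
      rw [this]
      exact hts'.2.1 hc'
    · rw [hsv, mul_inv_cancel_left]
  have hUn : U.Normal := by
    constructor
    intro n hn g
    obtain ⟨t, ht, h⟩ := (memU n).mp hn
    exact (memU _).mpr ⟨t, ht, t.good.nU.conj_mem n h g⟩
  have hVn : V.Normal := Subgroup.normal_iInf_normal fun t => t.1.good.nV
  have hgood : Good D U V := by
    refine ⟨hUn, hVn, ?_, ?_, ?_, ?_, hg1, ?_⟩
    · intro g hgU hgV
      obtain ⟨t, ht, h⟩ := (memU g).mp hgU
      exact t.good.inf g h (leV t ht hgV)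
    · intro w hw
      have hle : commutator G ≤ U ⊔ V := by
        rw [_root_.commutator_def, Subgroup.commutator_le]
        intro g _ x _
        obtain ⟨g0, -, hg0, c, hc, e⟩ := hg1 g x
        rw [e]
        exact Subgroup.mul_mem _ (Subgroup.mem_sup_left hg0) (Subgroup.mem_sup_right hc)
      have := hle hw
      rw [Subgroup.mem_sup_of_normal_left] at this
      obtain ⟨a, ha, b, hb, e⟩ := this
      exact ⟨a, ha, b, hb, e.symm⟩
    · intro g hg
      obtain ⟨t, ht, h⟩ := (memU g).mp hg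
      exact t.good.leU h
    · obtain ⟨t, ht⟩ := hne
      exact (leV t ht).trans t.good.leV
    · intro n a b ha hb hab
      obtain ⟨t, ht, h⟩ := (memU a).mp ha
      exact t.good.g2 n a b h (leV t ht hb) hab
  have hfam2 : ∀ g, {N | N ∈ FF ∧ g ∉ N}.Finite := by
    let S : Subgroup G :=
      { carrier := {g | {N | N ∈ FF ∧ g ∉ N}.Finite}
        mul_mem' := by
          intro a b ha hb
          refine (ha.union hb).subset ?_
          rintro N ⟨hN, habN⟩
          by_cases haN : a ∈ N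
          · right
            exact ⟨hN, fun hbN => habN (N.mul_mem haN hbN)⟩
          · left
            exact ⟨hN, haN⟩
        one_mem' := by
          refine Set.finite_empty.subset ?_
          rintro N ⟨_, h⟩
          exact h N.one_mem
        inv_mem' := by
          intro a ha
          refine Set.Finite.subset ha ?_
          rintro N ⟨hN, h⟩
          exact ⟨hN, fun haN => h (N.inv_mem haN)⟩ }
    have hS : S = ⊤ := by
      apply D.eq_top_of
      · intro w hw
        obtain ⟨a, ha, b, hb, rfl⟩ := hgood.sup w hw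
        obtain ⟨t, ht, h⟩ := (memU a).mp ha
        refine (t.fam2 a).subset ?_
        rintro N ⟨hN, hNab⟩
        have hbN : b ∈ N := by
          obtain ⟨s, hs, hNs⟩ := (memFF N).mp hN
          exact (s.fam1 N hNs).2.2 (leV s hs hb)
        have haN : a ∉ N := fun haN => hNab (N.mul_mem haN hbN)
        refine ⟨?_, haN⟩
        by_contra hNt
        obtain ⟨s, hs, hts, hNs⟩ := late t ht N hN hNt
        exact haN ((hts.2.2.2 N hNs hNt).1 h)
      · intro i
        have hfin : (insert (D.x i ^ D.q i) (Set.range fun g : G => ⁅g, D.x i⁆)).Finite :=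
          (commSet_finite hL (D.x i)).insert _
        have hex : ∀ f : G, ∃ t ∈ c, f ∈ commutator G → f ∈ t.U ⊔ V := by
          intro f
          by_cases hf : f ∈ commutator G
          · obtain ⟨a, ha, b, hb, e⟩ := hgood.sup f hf
            obtain ⟨t, ht, h⟩ := (memU a).mp ha
            refine ⟨t, ht, fun _ => ?_⟩
            rw [e]
            exact Subgroup.mul_mem _ (Subgroup.mem_sup_left h) (Subgroup.mem_sup_right hb)
          · obtain ⟨t, ht⟩ := hne
            exact ⟨t, ht, fun h => absurd h hf⟩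
        choose T hT1 hT2 using hex
        obtain ⟨t, ht, htT⟩ := chain_ub_finite hc hne (hfin.image T) (by
          rintro _ ⟨f, _, rfl⟩
          exact hT1 f)
        have hz : D.x i ^ D.q i ∈ t.U ⊔ V :=
          sup_le_sup_right (htT _ ⟨_, Set.mem_insert _ _, rfl⟩).1 _ (hT2 _ (D.z_mem i))
        have hcc : ∀ g : G, ⁅g, D.x i⁆ ∈ t.U ⊔ V := fun g =>
          sup_le_sup_right (htT _ ⟨_, Set.mem_insert_of_mem _ ⟨g, rfl⟩, rfl⟩).1 _
            (hT2 _ (hcm g (D.x i)))
        refine (t.fam2 (D.x i)).subset ?_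
        rintro N ⟨hN, hNx⟩
        refine ⟨?_, hNx⟩
        by_contra hNt
        obtain ⟨s, hs, hts, hNs⟩ := late t ht N hN hNt
        exact hNx ((hts.2.2.2 N hNs hNt).2 i (sup_le_sup_left (leV s hs) _ hz)
          fun g => sup_le_sup_left (leV s hs) _ (hcc g))
    intro g
    have : g ∈ S := hS ▸ Subgroup.mem_top g
    exact this
  refine ⟨⟨U, V, FF, hgood, ?_, hfam2, ?_⟩, ?_⟩
  · intro N hN
    obtain ⟨s, hs, hNs⟩ := (memFF N).mp hN
    obtain ⟨h1, h2, h3⟩ := s.fam1 N hNs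
    exact ⟨h1, h2, (leV s hs).trans h3⟩
  · intro a ha ha1
    obtain ⟨t, ht, h⟩ := (memU a).mp ha
    obtain ⟨N, hN, haN⟩ := t.fam3 a h ha1
    exact ⟨N, (memFF N).mpr ⟨t, ht, hN⟩, haN⟩
  · intro t ht
    refine ⟨leU t ht, leV t ht, fun N hN => (memFF N).mpr ⟨t, ht, hN⟩, ?_⟩
    intro N hN hNt
    obtain ⟨s, hs, hts, hNs⟩ := late t ht N hN hNt
    refine ⟨(hts.2.2.2 N hNs hNt).1, fun i hz hcc => ?_⟩
    exact (hts.2.2.2 N hNs hNt).2 i (sup_le_sup_left (leV s hs) _ hz)
          fun g => sup_le_sup_left (leV s hs) _ (hcc g)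

/-- Theorem: a locally normal residually finite group whose abelianization is a direct sum of
cyclic groups has a point-finite separating family of finite index normal subgroups. -/
theorem CycData.sdf (D : CycData G I) (hL : LocNormal G) (hR : ResFin G) :
    ∃ FF : Set (Subgroup G), (∀ N ∈ FF, N.Normal ∧ N.FiniteIndex) ∧
      (∀ g, {N | N ∈ FF ∧ g ∉ N}.Finite) ∧ (∀ g, g ≠ 1 → ∃ N ∈ FF, g ∉ N) := by
  classical
  obtain ⟨m, hm⟩ := exists_maximal_of_chains_bounded (r := Tri.le (D := D)) (by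
    intro c hc
    rcases c.eq_empty_or_nonempty with rfl | hne
    · exact ⟨Tri.triv D, by simp⟩
    · exact Tri.chain_bound hL hc hne) (fun h1 h2 => Tri.le_trans h1 h2)
  have hV : ∀ v ∈ m.V, v = 1 := by
    intro v0 hv0
    by_contra hv1
    obtain ⟨X, NS, hP, hv0X⟩ := m.good.exists_epair hL hR v0
    obtain ⟨hG', -, -⟩ := m.good.extend hL hP
    obtain ⟨F1, hF1, hF2, hF3, hF4⟩ := m.good.lemma3 hL hP
    have hUn := m.good.nU
    let t : Tri D :=
      { U := m.U ⊔ (m.V ⊓ X)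
        V := m.V ⊓ sInf NS
        FF := m.FF ∪ F1
        good := hG'
        fam1 := by
          rintro N (hN | hN)
          · obtain ⟨h1, h2, h3⟩ := m.fam1 N hN
            exact ⟨h1, h2, inf_le_left.trans h3⟩
          · obtain ⟨h1, h2, h3⟩ := hF1 N hN
            exact ⟨h1, h2, le_sup_right.trans h3⟩
        fam2 := by
          intro g
          refine ((m.fam2 g).union (hF2 g)).subset ?_
          rintro N ⟨hN | hN, hg⟩
          · exact Or.inl ⟨hN, hg⟩
          · exact Or.inr ⟨hN, hg⟩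
        fam3 := by
          intro a ha ha1
          rw [Subgroup.mem_sup_of_normal_left] at ha
          obtain ⟨a, ha, b, hb, rfl⟩ := ha
          by_cases hb1 : b = 1
          · subst hb1
            rw [mul_one] at ha1 ⊢
            obtain ⟨N, hN, haN⟩ := m.fam3 a ha ha1
            exact ⟨N, Or.inl hN, haN⟩
          · obtain ⟨N, hN, hbN⟩ := hF3 b hb hb1
            refine ⟨N, Or.inr hN, fun habN => hbN ?_⟩
            have haN : a ∈ N := (hF1 N hN).2.2 (Subgroup.mem_sup_left ha)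
            have := N.mul_mem (N.inv_mem haN) habN
            rwa [inv_mul_cancel_left] at this }
    have hmt : m.le t := by
      refine ⟨le_sup_left, inf_le_left, Set.subset_union_left, ?_⟩
      rintro N (hN | hN) hNm
      · exact absurd hN hNm
      · exact ⟨le_sup_left.trans (hF1 N hN).2.2, fun i hz hc => hF4 i hz hc N hN⟩
    have htm := hm t hmt
    have : v0 ∈ m.U := htm.1 (Subgroup.mem_sup_right ⟨hv0, hv0X⟩)
    exact hv1 (m.good.inf v0 this hv0)
  refine ⟨m.FF ∪ Set.range (fun i => (D.φ i).ker), ?_, ?_, ?_⟩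
  · rintro N (hN | ⟨i, rfl⟩)
    · exact ⟨(m.fam1 N hN).1, (m.fam1 N hN).2.1⟩
    · have hne : NeZero (D.q i) := ⟨D.hq i⟩
      have hf : Finite (Multiplicative (ZMod (D.q i))) := inferInstanceAs (Finite (ZMod (D.q i)))
      exact ⟨inferInstance, ker_finiteIndex _⟩
  · intro g
    refine ((m.fam2 g).union ((D.hfin g).image (fun i => (D.φ i).ker))).subset ?_
    rintro N ⟨hN | ⟨i, rfl⟩, hg⟩
    · exact Or.inl ⟨hN, hg⟩
    · exact Or.inr ⟨i, hg, rfl⟩
  · intro g hg
    by_cases hgc : g ∈ commutator G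
    · obtain ⟨a, ha, b, hb, rfl⟩ := m.good.sup g hgc
      have hb1 := hV b hb
      subst hb1
      rw [mul_one] at hg ⊢
      obtain ⟨N, hN, haN⟩ := m.fam3 a ha hg
      exact ⟨N, Or.inl hN, haN⟩
    · have : ∃ i, D.φ i g ≠ 1 := by
        by_contra hcon
        push Not at hcon
        exact hgc (D.hker g hcon)
      obtain ⟨i, hi⟩ := this
      exact ⟨(D.φ i).ker, Or.inr ⟨i, rfl⟩, hi⟩

end Pool.Agent.Helper33.LN
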